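import Mathlib
import Pool.Agent.Helper77_TDG.Game

/-!
# Total domination game, bound 2/3: certificates and the least certificate

Covering game: `N v` is the set of targets of the player `v`; a position is the set `U` of
uncovered targets; the move `v` leads from `U` to `U \ N v` and is legal if `N v ∩ U` is nonempty.
`n U` is four times a bound for the number of moves of Staller when Dominator is to move.
-/

set_option linter.unusedSectionVars false

namespace Pool.Agent.TDG

open Finset Helper77.TDG

variable {V X : Type*} [Fintype V] [DecidableEq V] [DecidableEq X]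

/-- The local conditions for the value `m` at the position `U`, the function `n` giving the values
of the later positions. -/
def LocOK (N : V → Finset X) (n : Finset X → ℕ) (U : Finset X) (m : ℕ) : Prop :=
  (∀ v, (N v ∩ U).Nonempty → n (U \ N v) + 1 ≤ m) ∧
  (m % 2 = 1 → ∃ v, (N v ∩ U).Nonempty ∧ n (U \ N v) + 3 ≤ m) ∧
  (m % 4 = 2 → ∃ v, (N v ∩ U).Nonempty ∧ n (U \ N v) + 2 ≤ m)

/-- A certificate. -/
def Cert (N : V → Finset X) (n : Finset X → ℕ) : Prop := ∀ U, LocOK N n U (n U)

/-- The least certificate. -/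
noncomputable def ns (N : V → Finset X) (U : Finset X) : ℕ :=
  sInf {m | ∃ n, Cert N n ∧ n U = m}

variable {N : V → Finset X} {U : Finset X}

lemma sdiff_card_lt {v : V} (hv : (N v ∩ U).Nonempty) : (U \ N v).card < U.card := by
  have h1 := card_step (N := N) (U := U) v
  have h2 := card_pos.2 hv
  omega

lemma cert_four : Cert N (fun U => 4 * U.card) := by
  intro U
  refine ⟨fun v hv => ?_, fun h => ?_, fun h => ?_⟩
  · have := sdiff_card_lt hv
    simp only
    omega
  · simp only at h; omega
  · simp only at h; omega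

lemma ns_nonempty (U : Finset X) : {m | ∃ n, Cert N n ∧ n U = m}.Nonempty :=
  ⟨_, _, cert_four, rfl⟩

lemma ns_le {n : Finset X → ℕ} (hn : Cert N n) (U : Finset X) : ns N U ≤ n U :=
  Nat.sInf_le ⟨n, hn, rfl⟩

lemma cert_ns : Cert N (ns N) := by
  intro U
  obtain ⟨n, hn, hU⟩ := Nat.sInf_mem (ns_nonempty (N := N) U)
  have hU' : n U = ns N U := hU
  obtain ⟨h1, h2, h3⟩ := hn U
  rw [hU'] at h1 h2 h3
  refine ⟨fun v hv => ?_, fun h => ?_, fun h => ?_⟩
  · have := ns_le hn (U \ N v)
    have := h1 v hv
    omega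
  · obtain ⟨v, hv, h⟩ := h2 h
    have := ns_le hn (U \ N v)
    exact ⟨v, hv, by omega⟩
  · obtain ⟨v, hv, h⟩ := h3 h
    have := ns_le hn (U \ N v)
    exact ⟨v, hv, by omega⟩

/-- (SC) -/
lemma ns_sc {v : V} (hv : (N v ∩ U).Nonempty) : ns N (U \ N v) + 1 ≤ ns N U :=
  (cert_ns U).1 v hv

lemma ns_odd (h : ns N U % 2 = 1) : ∃ v, (N v ∩ U).Nonempty ∧ ns N (U \ N v) + 3 ≤ ns N U :=
  (cert_ns U).2.1 h

lemma ns_two (h : ns N U % 4 = 2) : ∃ v, (N v ∩ U).Nonempty ∧ ns N (U \ N v) + 2 ≤ ns N U :=
  (cert_ns U).2.2 h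

/-- Local minimality: every locally admissible value is at least the least certificate. -/
lemma ns_le_of_loc {m : ℕ} (h : LocOK N (ns N) U m) : ns N U ≤ m := by
  by_contra hlt
  push Not at hlt
  obtain ⟨n', hle, hU, hW'⟩ : ∃ n' : Finset X → ℕ, (∀ W, n' W ≤ ns N W) ∧ n' U = m ∧
      ∀ W, W ≠ U → n' W = ns N W := by
    refine ⟨fun W => if W = U then m else ns N W, fun W => ?_, by simp, fun W hW => by simp [hW]⟩
    by_cases hW : W = U
    · subst hW
      simp only [if_true]
      omega
    · simp [hW]
  have hc : Cert N n' := by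
    intro W
    by_cases hW : W = U
    · subst hW
      rw [hU]
      obtain ⟨h1, h2, h3⟩ := h
      refine ⟨fun v hv => ?_, fun h => ?_, fun h => ?_⟩
      · have := hle (W \ N v)
        have := h1 v hv
        omega
      · obtain ⟨v, hv, h⟩ := h2 h
        have := hle (W \ N v)
        exact ⟨v, hv, by omega⟩
      · obtain ⟨v, hv, h⟩ := h3 h
        have := hle (W \ N v)
        exact ⟨v, hv, by omega⟩
    · rw [hW' W hW]
      obtain ⟨h1, h2, h3⟩ := cert_ns (N := N) W
      refine ⟨fun v hv => ?_, fun h => ?_, fun h => ?_⟩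
      · have := hle (W \ N v)
        have := h1 v hv
        omega
      · obtain ⟨v, hv, h⟩ := h2 h
        have := hle (W \ N v)
        exact ⟨v, hv, by omega⟩
      · obtain ⟨v, hv, h⟩ := h3 h
        have := hle (W \ N v)
        exact ⟨v, hv, by omega⟩
  have := ns_le hc U
  omega

@[simp] lemma ns_empty : ns N (∅ : Finset X) = 0 := by
  have : ns N (∅ : Finset X) ≤ 0 := by
    refine ns_le_of_loc ⟨fun v hv => ?_, fun h => ?_, fun h => ?_⟩
    · simp at hv
    · omega
    · omega
  omega

/-- Simulation: an imagined position `W` in which every player who can move in `U` can move. -/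
lemma ns_sim {Y : Type*} [DecidableEq Y] {N' : V → Finset Y} (Rel : Finset X → Finset Y → Prop)
    (h1 : ∀ U W, Rel U W → ∀ v, (N v ∩ U).Nonempty → (N' v ∩ W).Nonempty)
    (h2 : ∀ U W, Rel U W → ∀ v, Rel (U \ N v) (W \ N' v)) :
    ∀ (k : ℕ) (U : Finset X) (W : Finset Y), W.card ≤ k → Rel U W → ns N U ≤ ns N' W := by
  have key : ∀ (U : Finset X) (v : V), ¬ (N v ∩ U).Nonempty → U \ N v = U := by
    intro U v hv
    rw [not_nonempty_iff_eq_empty] at hv
    ext x
    simp only [mem_sdiff, and_iff_left_iff_imp]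
    intro hx hx'
    have : x ∈ N v ∩ U := mem_inter.2 ⟨hx', hx⟩
    rw [hv] at this
    simp at this
  intro k
  induction k with
  | zero =>
    intro U W hW hR
    have hW0 : W = ∅ := by rw [← card_eq_zero]; omega
    subst hW0
    have : ns N U ≤ 0 := by
      refine ns_le_of_loc ⟨fun v hv => ?_, fun h => ?_, fun h => ?_⟩
      · have := h1 _ _ hR v hv
        simp at this
      · omega
      · omega
    omega
  | succ k ih =>
    intro U W hW hR
    -- if some move is illegal in `U` but legal in `W`, then we are done by induction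
    by_cases hill : ∃ v, (N' v ∩ W).Nonempty ∧ ¬ (N v ∩ U).Nonempty
    · obtain ⟨v, hv, hv'⟩ := hill
      have h3 := h2 _ _ hR v
      rw [key U v hv'] at h3
      have h4 := sdiff_card_lt hv
      have h5 := ih U (W \ N' v) (by omega) h3
      have h6 := ns_sc hv
      omega
    · push Not at hill
      have hstep : ∀ v, (N' v ∩ W).Nonempty → ns N (U \ N v) ≤ ns N' (W \ N' v) := by
        intro v hv
        have h4 := sdiff_card_lt hv
        exact ih _ _ (by omega) (h2 _ _ hR v)
      refine ns_le_of_loc ⟨fun v hv => ?_, fun h => ?_, fun h => ?_⟩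
      · have hv' := h1 _ _ hR v hv
        have := hstep v hv'
        have := ns_sc hv'
        omega
      · obtain ⟨v, hv, h⟩ := ns_odd h
        have := hstep v hv
        exact ⟨v, hill v hv, by omega⟩
      · obtain ⟨v, hv, h⟩ := ns_two h
        have := hstep v hv
        exact ⟨v, hill v hv, by omega⟩

lemma ns_mono {U W : Finset X} (h : U ⊆ W) : ns N U ≤ ns N W := by
  refine ns_sim (N := N) (N' := N) (fun U W => U ⊆ W) ?_ ?_ W.card U W le_rfl h
  · intro U W h v hv
    exact hv.mono (inter_subset_inter_left h)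
  · intro U W h v
    exact sdiff_subset_sdiff h (Subset.refl _)

/-- Extraction of one target. -/
lemma ns_extract_one (hN : ∀ x, ∃ v, x ∈ N v) :
    ∀ (k : ℕ) (U : Finset X) (z : X), U.card ≤ k → ns N U ≤ 2 + ns N (U.erase z) := by
  intro k
  induction k with
  | zero =>
    intro U z hU
    have hU0 : U = ∅ := by rw [← card_eq_zero]; omega
    subst hU0
    simp
  | succ k ih =>
    intro U z hU
    by_cases hz : z ∈ U
    swap
    · rw [erase_eq_of_notMem hz]; omega
    have hstep : ∀ v, (N v ∩ U).Nonempty →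
        ns N (U \ N v) ≤ 2 + ns N ((U.erase z) \ N v) := by
      intro v hv
      have h4 := sdiff_card_lt hv
      have h5 := ih (U \ N v) z (by omega)
      have h6 : (U \ N v).erase z = (U.erase z) \ N v := by
        ext x; simp only [mem_erase, mem_sdiff]; tauto
      rwa [h6] at h5
    have hstep' : ∀ v, z ∈ N v → U \ N v = (U.erase z) \ N v := by
      intro v hv
      ext x
      simp only [mem_erase, mem_sdiff]
      constructor
      · rintro ⟨h1, h2⟩
        exact ⟨⟨fun h => h2 (h ▸ hv), h1⟩, h2⟩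
      · rintro ⟨⟨_, h1⟩, h2⟩
        exact ⟨h1, h2⟩
    have hmn : ∀ v, (N v ∩ U.erase z).Nonempty → (N v ∩ U).Nonempty := by
      intro v hv
      exact hv.mono (inter_subset_inter_left (erase_subset _ _))
    have hdrop : ∀ v, ns N ((U.erase z) \ N v) ≤ ns N (U.erase z) :=
      fun v => ns_mono sdiff_subset
    refine ns_le_of_loc ⟨fun v hv => ?_, fun h => ?_, fun h => ?_⟩
    · by_cases hzv : z ∈ N v
      · rw [hstep' v hzv]
        have := hdrop v
        omega
      · have h1 : (N v ∩ U.erase z).Nonempty := by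
          obtain ⟨x, hx⟩ := hv
          rw [mem_inter] at hx
          refine ⟨x, mem_inter.2 ⟨hx.1, mem_erase.2 ⟨fun h => hzv (h ▸ hx.1), hx.2⟩⟩⟩
        have h2 := ns_sc h1
        have h3 := hstep v hv
        omega
    · have h' : ns N (U.erase z) % 2 = 1 := by omega
      obtain ⟨v, hv, hd⟩ := ns_odd h'
      have h3 := hstep v (hmn v hv)
      exact ⟨v, hmn v hv, by omega⟩
    · obtain ⟨v, hv⟩ := hN z
      refine ⟨v, ⟨z, mem_inter.2 ⟨hv, hz⟩⟩, ?_⟩
      rw [hstep' v hv]
      have := hdrop v
      omega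

/-- Extraction of a set of targets. -/
lemma ns_extract (hN : ∀ x, ∃ v, x ∈ N v) (U Z : Finset X) :
    ns N U ≤ 2 * Z.card + ns N (U \ Z) := by
  induction Z using Finset.induction_on with
  | empty => simp
  | insert z Z hz ih =>
    rw [card_insert_of_notMem hz]
    have h1 := ns_extract_one hN (U \ Z).card (U \ Z) z le_rfl
    have h2 : (U \ Z).erase z = U \ insert z Z := by
      ext x; simp only [mem_erase, mem_sdiff, mem_insert]; tauto
    rw [h2] at h1
    omega

/-- No player meets both `A` and `B`. -/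
def Sep (N : V → Finset X) (A B : Finset X) : Prop :=
  ∀ v, (N v ∩ A).Nonempty → ¬ (N v ∩ B).Nonempty

lemma Sep.symm {A B : Finset X} (h : Sep N A B) : Sep N B A :=
  fun v h1 h2 => h v h2 h1

lemma Sep.mono {A B A' B' : Finset X} (h : Sep N A B) (hA : A' ⊆ A) (hB : B' ⊆ B) :
    Sep N A' B' :=
  fun v h1 h2 => h v (h1.mono (inter_subset_inter_left hA)) (h2.mono (inter_subset_inter_left hB))

lemma sdiff_eq_self_of_not {v : V} {B : Finset X} (h : ¬ (N v ∩ B).Nonempty) : B \ N v = B := by
  rw [not_nonempty_iff_eq_empty] at h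
  ext x
  simp only [mem_sdiff, and_iff_left_iff_imp]
  intro hx hx'
  have : x ∈ N v ∩ B := mem_inter.2 ⟨hx', hx⟩
  rw [h] at this
  simp at this

/-- Subadditivity. -/
lemma ns_union_le : ∀ (k : ℕ) (A B : Finset X), A.card + B.card ≤ k → Sep N A B →
    ns N (A ∪ B) ≤ ns N A + ns N B := by
  intro k
  induction k with
  | zero =>
    intro A B h hs
    have hA : A = ∅ := by rw [← card_eq_zero]; omega
    have hB : B = ∅ := by rw [← card_eq_zero]; omega
    subst hA hB
    simp
  | succ k ih =>
    intro A B h hs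
    have hl : ∀ v, (N v ∩ A).Nonempty → (N v ∩ (A ∪ B)).Nonempty ∧
        ns N ((A ∪ B) \ N v) ≤ ns N (A \ N v) + ns N B := by
      intro v hv
      have h1 := sdiff_card_lt hv
      have h2 := hs v hv
      have h3 : (A ∪ B) \ N v = (A \ N v) ∪ B := by
        rw [union_sdiff_distrib, sdiff_eq_self_of_not h2]
      refine ⟨hv.mono (inter_subset_inter_left subset_union_left), ?_⟩
      rw [h3]
      exact ih _ _ (by omega) (hs.mono sdiff_subset (Subset.refl _))
    have hr : ∀ v, (N v ∩ B).Nonempty → (N v ∩ (A ∪ B)).Nonempty ∧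
        ns N ((A ∪ B) \ N v) ≤ ns N A + ns N (B \ N v) := by
      intro v hv
      have h1 := sdiff_card_lt hv
      have h2 : ¬ (N v ∩ A).Nonempty := fun h => hs v h hv
      have h3 : (A ∪ B) \ N v = A ∪ (B \ N v) := by
        rw [union_sdiff_distrib, sdiff_eq_self_of_not h2]
      refine ⟨hv.mono (inter_subset_inter_left subset_union_right), ?_⟩
      rw [h3]
      exact ih _ _ (by omega) (hs.mono (Subset.refl _) sdiff_subset)
    refine ns_le_of_loc ⟨fun v hv => ?_, fun h => ?_, fun h => ?_⟩
    · rw [inter_union_distrib_left, union_nonempty] at hv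
      rcases hv with hv | hv
      · have := (hl v hv).2
        have := ns_sc hv
        omega
      · have := (hr v hv).2
        have := ns_sc hv
        omega
    · by_cases hA : ns N A % 2 = 1
      · obtain ⟨v, hv, hd⟩ := ns_odd hA
        have := (hl v hv).2
        exact ⟨v, (hl v hv).1, by omega⟩
      · have hB : ns N B % 2 = 1 := by omega
        obtain ⟨v, hv, hd⟩ := ns_odd hB
        have := (hr v hv).2
        exact ⟨v, (hr v hv).1, by omega⟩
    · by_cases hA : ns N A % 2 = 1
      · obtain ⟨v, hv, hd⟩ := ns_odd hA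
        have := (hl v hv).2
        exact ⟨v, (hl v hv).1, by omega⟩
      · by_cases hA2 : ns N A % 4 = 2
        · obtain ⟨v, hv, hd⟩ := ns_two hA2
          have := (hl v hv).2
          exact ⟨v, (hl v hv).1, by omega⟩
        · have hB : ns N B % 4 = 2 := by omega
          obtain ⟨v, hv, hd⟩ := ns_two hB
          have := (hr v hv).2
          exact ⟨v, (hr v hv).1, by omega⟩

lemma ns_union {A B : Finset X} (h : Sep N A B) : ns N (A ∪ B) ≤ ns N A + ns N B :=
  ns_union_le _ A B le_rfl h

/-- The game: with Dominator to move at most `ns / 4` moves of Staller follow, with Staller to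
move at most `(ns + 3) / 4`. -/
lemma CE_of_ns (hN : ∀ x, ∃ v, x ∈ N v) : ∀ (k : ℕ) (U : Finset X), U.card ≤ k →
    CE N (2 * (ns N U / 4) + 1) true U ∧ CE N (2 * ((ns N U + 3) / 4)) false U := by
  have hmove : ∀ U : Finset X, U ≠ ∅ → ∃ v, (N v ∩ U).Nonempty := by
    intro U hU
    obtain ⟨x, hx⟩ := nonempty_iff_ne_empty.2 hU
    obtain ⟨v, hv⟩ := hN x
    exact ⟨v, x, mem_inter.2 ⟨hv, hx⟩⟩
  have hmono : ∀ (k l : ℕ) (t : Bool) (U : Finset X), k ≤ l → CE N k t U → CE N l t U := by
    intro k
    induction k with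
    | zero =>
      intro l t U _ h
      have : U = ∅ := h
      subst this
      exact CE_empty _ _
    | succ k ih =>
      intro l t U hkl h
      obtain ⟨l, rfl⟩ : ∃ l', l = l' + 1 := ⟨l - 1, by omega⟩
      cases t with
      | true =>
        rcases h with h | ⟨v, hv, h⟩
        · exact Or.inl h
        · exact Or.inr ⟨v, hv, ih _ _ _ (by omega) h⟩
      | false =>
        intro v hv
        exact ih _ _ _ (by omega) (h v hv)
  intro k
  induction k with
  | zero =>
    intro U h
    have : U = ∅ := by rw [← card_eq_zero]; omega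
    subst this
    exact ⟨CE_empty _ _, CE_empty _ _⟩
  | succ k ih =>
    intro U hU
    by_cases hU0 : U = ∅
    · subst hU0
      exact ⟨CE_empty _ _, CE_empty _ _⟩
    have hstep : ∀ v, (N v ∩ U).Nonempty →
        CE N (2 * (ns N (U \ N v) / 4) + 1) true (U \ N v) ∧
        CE N (2 * ((ns N (U \ N v) + 3) / 4)) false (U \ N v) := by
      intro v hv
      have := sdiff_card_lt hv
      exact ih _ (by omega)
    constructor
    · have hfin : ∀ v, (N v ∩ U).Nonempty → (ns N (U \ N v) + 3) / 4 ≤ ns N U / 4 →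
          CE N (2 * (ns N U / 4) + 1) true U := by
        intro v hv h
        exact Or.inr ⟨v, hv, hmono _ _ _ _ (by omega) (hstep v hv).2⟩
      by_cases h1 : ns N U % 2 = 1
      · obtain ⟨v, hv, hd⟩ := ns_odd h1
        exact hfin v hv (by omega)
      · by_cases h2 : ns N U % 4 = 2
        · obtain ⟨v, hv, hd⟩ := ns_two h2
          exact hfin v hv (by omega)
        · obtain ⟨v, hv⟩ := hmove U hU0
          have := ns_sc hv
          exact hfin v hv (by omega)
    · obtain ⟨v0, hv0⟩ := hmove U hU0
      have h0 := ns_sc hv0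
      obtain ⟨l, hl⟩ : ∃ l, 2 * ((ns N U + 3) / 4) = l + 1 :=
        ⟨2 * ((ns N U + 3) / 4) - 1, by omega⟩
      rw [hl]
      intro v hv
      have := ns_sc hv
      exact hmono _ _ _ _ (by omega) (hstep v hv).1

end Pool.Agent.TDG
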