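import Mathlib
import Pool.Agent.Helper53_TDG.NS

/-!
# Total domination game, bound 2/3: positions, components, bad clusters, the potential `M`

World: `N v` = targets of the player `v`; `Hv` = heavy targets (weight 2, exactly one player).
Position: the set `U` of uncovered targets.  `R` always ranges over sets of ordinary targets.
All numbers are doubled: `sf = 2 f`, `F2 = 2 F`.
-/

set_option linter.unusedSectionVars false

namespace Pool.Agent.TDG

open Finset Helper77.TDG

variable {V X : Type*} [Fintype V] [DecidableEq V] [DecidableEq X]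

/-- Ordinary targets have at least two players, heavy targets exactly one, and a player has at
most one heavy target. -/
structure World (N : V → Finset X) (Hv : Finset X) : Prop where
  two : ∀ x, x ∉ Hv → 2 ≤ (univ.filter fun v => x ∈ N v).card
  one : ∀ x ∈ Hv, (univ.filter fun v => x ∈ N v).card = 1
  heavy : ∀ v, (N v ∩ Hv).card ≤ 1

/-- `Φ` : number of targets (heavy ones counted twice) plus number of playable players. -/
def Phi (N : V → Finset X) (Hv U : Finset X) : ℕ := U.card + (U ∩ Hv).card + (alive N U).card

/-- `K` is a union of components of the position `U`. -/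
def Closed (N : V → Finset X) (U K : Finset X) : Prop :=
  K ⊆ U ∧ ∀ v, (N v ∩ K).Nonempty → N v ∩ U ⊆ K

/-- `K` is connected (and nonempty). -/
def Conn (N : V → Finset X) (K : Finset X) : Prop :=
  K.Nonempty ∧ ∀ D, D.Nonempty → Closed N K D → D = K

/-- `K` is a component of the position `U`. -/
def IsComp (N : V → Finset X) (U K : Finset X) : Prop := Closed N U K ∧ Conn N K

open Classical in
/-- The components of the position `U`. -/
noncomputable def comps (N : V → Finset X) (U : Finset X) : Finset (Finset X) :=
  U.powerset.filter fun K => IsComp N U K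

/-- The players of the position `U` all of whose targets in `U` lie in `R`. -/
def J (N : V → Finset X) (U R : Finset X) : Finset V :=
  (alive N U).filter fun v => N v ∩ U ⊆ R

/-- `K` is a graph: no heavy targets, every player meeting `K` has exactly two targets in `K`. -/
def IsGraph (N : V → Finset X) (Hv K : Finset X) : Prop :=
  Disjoint K Hv ∧ ∀ v, (N v ∩ K).Nonempty → (N v ∩ K).card = 2

/-- Truly bad clusters. -/
def Bad (N : V → Finset X) (Hv K : Finset X) : Prop :=
  Conn N K ∧ IsGraph N Hv K ∧ Phi N Hv K % 6 = 5 ∧ 3 * ns N K = 2 * (Phi N Hv K + 1)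

open Classical in
/-- The value of a component. -/
noncomputable def gv (N : V → Finset X) (Hv K : Finset X) : ℤ :=
  if Bad N Hv K then (2 * (Phi N Hv K : ℤ) - 4) / 3 else (2 * (Phi N Hv K : ℤ)) / 3

open Classical in
/-- The bad components of `U \ R` (the clusters closed by `R`). -/
noncomputable def bc (N : V → Finset X) (Hv U R : Finset X) : Finset (Finset X) :=
  (comps N (U \ R)).filter fun K => Bad N Hv K

/-- `2 φ(R) = 2 |R| - |J(R)|`. -/
def ph (N : V → Finset X) (U R : Finset X) : ℤ := 2 * (R.card : ℤ) - ((J N U R).card : ℤ)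

/-- `2 f(R)`. -/
noncomputable def sf (N : V → Finset X) (Hv U R : Finset X) : ℤ :=
  - ph N U R + 2 * ((bc N Hv U R).card : ℤ)

/-- `G(R)`. -/
noncomputable def GG (N : V → Finset X) (Hv U R : Finset X) : ℤ :=
  2 * (R.card : ℤ) + ∑ K ∈ comps N (U \ R), gv N Hv K

/-- `2 F`. -/
noncomputable def F2 (N : V → Finset X) (Hv U : Finset X) : ℤ :=
  ((U \ Hv).powerset).sup' ⟨∅, by simp⟩ (fun R => sf N Hv U R)

/-- `Γ`. -/
noncomputable def Gam (N : V → Finset X) (Hv U : Finset X) : ℤ :=
  ((U \ Hv).powerset).inf' ⟨∅, by simp⟩ (fun R => GG N Hv U R)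

/-- The potential. -/
noncomputable def MM (N : V → Finset X) (Hv U : Finset X) : ℤ := F2 N Hv U + Gam N Hv U

/-- Number of targets in `K` of ... `2ρ`: 0, 2, 1 for `Φ = 0, 1, 2` mod 3. -/
def rho2 (p : ℕ) : ℤ := if p % 3 = 0 then 0 else if p % 3 = 1 then 2 else 1

/-- THE MAIN THEOREM about positions. -/
def MainStmt : Prop :=
  ∀ (V X : Type) [Fintype V] [DecidableEq V] [DecidableEq X] (N : V → Finset X) (Hv U : Finset X),
    World N Hv → (ns N U : ℤ) ≤ MM N Hv U

end Pool.Agent.TDG
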