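import Mathlib
import Pool.Agent.Helper53_TDG.Defs

/-!
# Total domination game, bound 2/3: component library
-/

set_option linter.unusedSectionVars false

namespace Pool.Agent.TDG

open Finset Helper77.TDG

variable {V X : Type*} [Fintype V] [DecidableEq V] [DecidableEq X]
variable {N : V → Finset X} {Hv U : Finset X}

/-! ### closed sets -/

lemma closed_empty (U : Finset X) : Closed N U ∅ := by
  refine ⟨empty_subset _, fun v hv => ?_⟩
  simp at hv

lemma closed_self (U : Finset X) : Closed N U U := ⟨Subset.refl _, fun _ _ => inter_subset_right⟩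

lemma Closed.inter {K L : Finset X} (hK : Closed N U K) (hL : Closed N U L) :
    Closed N U (K ∩ L) := by
  refine ⟨inter_subset_left.trans hK.1, fun v hv => ?_⟩
  refine subset_inter (hK.2 v (hv.mono ?_)) (hL.2 v (hv.mono ?_))
  · exact inter_subset_inter_left inter_subset_left
  · exact inter_subset_inter_left inter_subset_right

lemma Closed.union {K L : Finset X} (hK : Closed N U K) (hL : Closed N U L) :
    Closed N U (K ∪ L) := by
  refine ⟨union_subset hK.1 hL.1, fun v hv => ?_⟩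
  rw [inter_union_distrib_left, union_nonempty] at hv
  rcases hv with hv | hv
  · exact (hK.2 v hv).trans subset_union_left
  · exact (hL.2 v hv).trans subset_union_right

lemma Closed.sdiff {K : Finset X} (hK : Closed N U K) : Closed N U (U \ K) := by
  refine ⟨sdiff_subset, fun v hv => ?_⟩
  intro x hx
  rw [mem_inter] at hx
  rw [mem_sdiff]
  refine ⟨hx.2, fun hxK => ?_⟩
  obtain ⟨y, hy⟩ := hv
  rw [mem_inter, mem_sdiff] at hy
  exact hy.2.2 (hK.2 v ⟨x, mem_inter.2 ⟨hx.1, hxK⟩⟩ (mem_inter.2 ⟨hy.1, hy.2.1⟩))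

lemma Closed.trans {K L : Finset X} (hK : Closed N U K) (hL : Closed N K L) : Closed N U L := by
  refine ⟨hL.1.trans hK.1, fun v hv => ?_⟩
  have h1 := hL.2 v hv
  have h2 := hK.2 v (hv.mono (inter_subset_inter_left hL.1))
  intro x hx
  have := h2 hx
  exact h1 (mem_inter.2 ⟨(mem_inter.1 hx).1, this⟩)

lemma Closed.restrict {K L : Finset X} (hL : Closed N U L) (hLK : L ⊆ K) (hKU : K ⊆ U) :
    Closed N K L := by
  refine ⟨hLK, fun v hv => ?_⟩
  exact (inter_subset_inter_left hKU).trans (hL.2 v hv)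

lemma Closed.sep {K : Finset X} (hK : Closed N U K) : Sep N K (U \ K) := by
  intro v h1 h2
  obtain ⟨x, hx⟩ := h2
  rw [mem_inter, mem_sdiff] at hx
  exact hx.2.2 (hK.2 v h1 (mem_inter.2 ⟨hx.1, hx.2.1⟩))

lemma closed_of_sep {A B : Finset X} (h : Sep N A B) : Closed N (A ∪ B) A := by
  refine ⟨subset_union_left, fun v hv => ?_⟩
  intro x hx
  rw [mem_inter, mem_union] at hx
  rcases hx.2 with h1 | h1
  · exact h1
  · exact absurd ⟨x, mem_inter.2 ⟨hx.1, h1⟩⟩ (h v hv)

/-! ### components -/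

lemma mem_comps {K : Finset X} : K ∈ comps N U ↔ IsComp N U K := by
  unfold comps
  simp only [Finset.mem_filter, Finset.mem_powerset]
  exact ⟨fun h => h.2, fun h => ⟨h.1.1, h⟩⟩

lemma comps_subset {K : Finset X} (h : K ∈ comps N U) : K ⊆ U := (mem_comps.1 h).1.1

lemma comps_closed {K : Finset X} (h : K ∈ comps N U) : Closed N U K := (mem_comps.1 h).1

lemma comps_conn {K : Finset X} (h : K ∈ comps N U) : Conn N K := (mem_comps.1 h).2

lemma comps_nonempty {K : Finset X} (h : K ∈ comps N U) : K.Nonempty := (mem_comps.1 h).2.1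

/-- A connected closed set is contained in every closed set which it meets. -/
lemma IsComp.subset_of_meets {K L : Finset X} (hK : IsComp N U K) (hL : Closed N U L)
    (h : (K ∩ L).Nonempty) : K ⊆ L := by
  have h1 : Closed N K (K ∩ L) :=
    (hK.1.inter hL).restrict inter_subset_left hK.1.1
  have := hK.2.2 _ h h1
  rw [← this]
  exact inter_subset_right

lemma comps_eq_of_meets {K L : Finset X} (hK : K ∈ comps N U) (hL : L ∈ comps N U)
    (h : (K ∩ L).Nonempty) : K = L := by
  rw [mem_comps] at hK hL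
  refine Subset.antisymm (hK.subset_of_meets hL.1 h) (hL.subset_of_meets hK.1 ?_)
  rwa [inter_comm]

lemma comps_disjoint {K L : Finset X} (hK : K ∈ comps N U) (hL : L ∈ comps N U)
    (h : K ≠ L) : Disjoint K L := by
  rw [disjoint_iff_inter_eq_empty]
  by_contra hne
  exact h (comps_eq_of_meets hK hL (nonempty_iff_ne_empty.2 hne))

/-- Every target lies in a component. -/
lemma exists_comp {x : X} (hx : x ∈ U) : ∃ K ∈ comps N U, x ∈ K := by
  classical
  have hne : ((U.powerset).filter fun K => Closed N U K ∧ x ∈ K).Nonempty :=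
    ⟨U, by simp [closed_self, hx]⟩
  obtain ⟨K, hK, hmin⟩ := exists_min_image _ (fun K => K.card) hne
  rw [mem_filter, mem_powerset] at hK
  refine ⟨K, mem_comps.2 ⟨hK.2.1, ⟨⟨x, hK.2.2⟩, ?_⟩⟩, hK.2.2⟩
  intro D hD hDK
  have hDU : Closed N U D := hK.2.1.trans hDK
  by_cases hxD : x ∈ D
  · have h1 := hmin D (by rw [mem_filter, mem_powerset]; exact ⟨hDU.1, hDU, hxD⟩)
    exact eq_of_subset_of_card_le hDK.1 h1
  · exfalso
    have h2 : Closed N U (K \ D) := hK.2.1.trans hDK.sdiff
    have h1 := hmin (K \ D) (by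
      rw [mem_filter, mem_powerset]; exact ⟨h2.1, h2, mem_sdiff.2 ⟨hK.2.2, hxD⟩⟩)
    have h3 := card_sdiff_add_card_inter K D
    have h4 : K ∩ D = D := inter_eq_right.2 hDK.1
    rw [h4] at h3
    have := card_pos.2 hD
    omega

lemma comps_biUnion : (comps N U).biUnion id = U := by
  ext x
  simp only [mem_biUnion, id]
  constructor
  · rintro ⟨K, hK, hx⟩
    exact comps_subset hK hx
  · intro hx
    obtain ⟨K, hK, hxK⟩ := exists_comp (N := N) hx
    exact ⟨K, hK, hxK⟩

lemma comps_pairwise : ((comps N U : Finset (Finset X)) : Set (Finset X)).PairwiseDisjoint id :=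
  fun _ hK _ hL h => comps_disjoint hK hL h

lemma card_eq_sum_comps : U.card = ∑ K ∈ comps N U, K.card := by
  conv_lhs => rw [← comps_biUnion (N := N) (U := U)]
  rw [card_biUnion comps_pairwise]
  rfl

@[simp] lemma comps_empty : comps N (∅ : Finset X) = ∅ := by
  rw [eq_empty_iff_forall_notMem]
  intro K hK
  have h1 := comps_subset hK
  have h2 := comps_nonempty hK
  rw [subset_empty] at h1
  subst h1
  simp at h2

/-- The components of a closed part. -/
lemma mem_comps_closed {A K : Finset X} (hA : Closed N U A) :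
    K ∈ comps N A ↔ K ∈ comps N U ∧ K ⊆ A := by
  rw [mem_comps, mem_comps]
  constructor
  · intro h
    exact ⟨⟨hA.trans h.1, h.2⟩, h.1.1⟩
  · intro h
    exact ⟨h.1.1.restrict h.2 hA.1, h.1.2⟩

lemma comps_split {A : Finset X} (hA : Closed N U A) :
    comps N U = comps N A ∪ comps N (U \ A) := by
  ext K
  rw [mem_union, mem_comps_closed hA, mem_comps_closed hA.sdiff]
  constructor
  · intro h
    by_cases hm : (K ∩ A).Nonempty
    · exact Or.inl ⟨h, (mem_comps.1 h).subset_of_meets hA hm⟩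
    · right
      refine ⟨h, fun x hx => mem_sdiff.2 ⟨comps_subset h hx, fun hxA => hm ⟨x, ?_⟩⟩⟩
      exact mem_inter.2 ⟨hx, hxA⟩
  · rintro (h | h) <;> exact h.1

lemma comps_split_disjoint {A : Finset X} : Disjoint (comps N A) (comps N (U \ A)) := by
  rw [disjoint_left]
  intro K h1 h2
  obtain ⟨x, hx⟩ := comps_nonempty h1
  exact (mem_sdiff.1 (comps_subset h2 hx)).2 (comps_subset h1 hx)

lemma sum_comps_split {A : Finset X} (hA : Closed N U A) (g : Finset X → ℤ) :
    ∑ K ∈ comps N U, g K = ∑ K ∈ comps N A, g K + ∑ K ∈ comps N (U \ A), g K := by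
  rw [comps_split hA, sum_union comps_split_disjoint]

/-- The trace of a closed set after the removal of `P`. -/
lemma Closed.sdiff_closed {K : Finset X} (hK : Closed N U K) (P : Finset X) :
    Closed N (U \ P) (K \ P) := by
  refine ⟨sdiff_subset_sdiff hK.1 (Subset.refl _), fun v hv => ?_⟩
  have h1 := hK.2 v (hv.mono (inter_subset_inter_left sdiff_subset))
  intro x hx
  rw [mem_inter, mem_sdiff] at hx
  rw [mem_sdiff]
  exact ⟨h1 (mem_inter.2 ⟨hx.1, hx.2.1⟩), hx.2.2⟩

/-- Components after the removal of `P`. -/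
lemma comps_sdiff (P : Finset X) :
    comps N (U \ P) = (comps N U).biUnion fun K => comps N (K \ P) := by
  ext L
  rw [mem_biUnion]
  constructor
  · intro hL
    obtain ⟨x, hx⟩ := comps_nonempty hL
    have hxU : x ∈ U := (mem_sdiff.1 (comps_subset hL hx)).1
    have hxP : x ∉ P := (mem_sdiff.1 (comps_subset hL hx)).2
    obtain ⟨K, hK, hxK⟩ := exists_comp (N := N) hxU
    refine ⟨K, hK, ?_⟩
    have hc : Closed N (U \ P) (K \ P) := (comps_closed hK).sdiff_closed P
    rw [mem_comps_closed hc]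
    refine ⟨hL, (mem_comps.1 hL).subset_of_meets hc ⟨x, ?_⟩⟩
    exact mem_inter.2 ⟨hx, mem_sdiff.2 ⟨hxK, hxP⟩⟩
  · rintro ⟨K, hK, hL⟩
    have hc : Closed N (U \ P) (K \ P) := (comps_closed hK).sdiff_closed P
    exact ((mem_comps_closed hc).1 hL).1

lemma comps_sdiff_pairwise (P : Finset X) :
    ((comps N U : Finset (Finset X)) : Set (Finset X)).PairwiseDisjoint
      fun K => comps N (K \ P) := by
  intro K hK L hL h
  show Disjoint (comps N (K \ P)) (comps N (L \ P))
  rw [disjoint_left]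
  intro A h1 h2
  obtain ⟨x, hx⟩ := comps_nonempty h1
  have h3 := (mem_sdiff.1 (comps_subset h1 hx)).1
  have h4 := (mem_sdiff.1 (comps_subset h2 hx)).1
  exact (disjoint_left.1 (comps_disjoint hK hL h)) h3 h4

lemma sum_comps_sdiff (P : Finset X) (g : Finset X → ℤ) :
    ∑ L ∈ comps N (U \ P), g L = ∑ K ∈ comps N U, ∑ L ∈ comps N (K \ P), g L := by
  rw [comps_sdiff, sum_biUnion (comps_sdiff_pairwise P)]

lemma Conn.comps {K : Finset X} (h : Conn N K) : comps N K = {K} := by
  ext L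
  rw [mem_singleton]
  constructor
  · intro hL
    exact h.2 L (comps_nonempty hL) (comps_closed hL)
  · rintro rfl
    exact mem_comps.2 ⟨closed_self _, h⟩

/-- Components not meeting `P` are not changed. -/
lemma sdiff_eq_of_disjoint {K P : Finset X} (h : Disjoint K P) : K \ P = K :=
  sdiff_eq_self_of_disjoint h

/-! ### alive players, `J`, `Φ` -/

lemma alive_mono {A B : Finset X} (h : A ⊆ B) : alive N A ⊆ alive N B := by
  intro v hv
  rw [mem_alive] at hv ⊢
  exact hv.mono (inter_subset_inter_left h)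

lemma alive_union {A B : Finset X} : alive N (A ∪ B) = alive N A ∪ alive N B := by
  ext v
  rw [mem_union, mem_alive, mem_alive, mem_alive, inter_union_distrib_left, union_nonempty]

lemma alive_disjoint {A B : Finset X} (h : Sep N A B) : Disjoint (alive N A) (alive N B) := by
  rw [disjoint_left]
  intro v h1 h2
  rw [mem_alive] at h1 h2
  exact h v h1 h2

lemma alive_eq_sum_comps : (alive N U).card = ∑ K ∈ comps N U, (alive N K).card := by
  have h : alive N U = (comps N U).biUnion fun K => alive N K := by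
    ext v
    rw [mem_biUnion, mem_alive]
    constructor
    · rintro ⟨x, hx⟩
      rw [mem_inter] at hx
      obtain ⟨K, hK, hxK⟩ := exists_comp (N := N) hx.2
      exact ⟨K, hK, mem_alive.2 ⟨x, mem_inter.2 ⟨hx.1, hxK⟩⟩⟩
    · rintro ⟨K, hK, hv⟩
      rw [mem_alive] at hv
      exact hv.mono (inter_subset_inter_left (comps_subset hK))
  rw [h, card_biUnion]
  intro K hK L hL hne
  show Disjoint (alive N K) (alive N L)
  rw [disjoint_left]
  intro v h1 h2
  rw [mem_alive] at h1 h2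
  have h3 := (comps_closed hK).2 v h1
  obtain ⟨x, hx⟩ := h2
  rw [mem_inter] at hx
  have h4 := h3 (mem_inter.2 ⟨hx.1, comps_subset hL hx.2⟩)
  exact (disjoint_left.1 (comps_disjoint hK hL hne)) h4 hx.2

lemma Phi_eq_sum_comps : Phi N Hv U = ∑ K ∈ comps N U, Phi N Hv K := by
  unfold Phi
  rw [sum_add_distrib, sum_add_distrib, ← alive_eq_sum_comps, ← card_eq_sum_comps]
  congr 2
  have h : U ∩ Hv = (comps N U).biUnion fun K => K ∩ Hv := by
    ext x
    rw [mem_biUnion, mem_inter]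
    constructor
    · rintro ⟨h1, h2⟩
      obtain ⟨K, hK, hxK⟩ := exists_comp (N := N) h1
      exact ⟨K, hK, mem_inter.2 ⟨hxK, h2⟩⟩
    · rintro ⟨K, hK, hx⟩
      rw [mem_inter] at hx
      exact ⟨comps_subset hK hx.1, hx.2⟩
  rw [h, card_biUnion]
  intro K hK L hL hne
  show Disjoint (K ∩ Hv) (L ∩ Hv)
  exact (comps_disjoint hK hL hne).mono inter_subset_left inter_subset_left

lemma mem_J {R : Finset X} {v : V} : v ∈ J N U R ↔ (N v ∩ U).Nonempty ∧ N v ∩ U ⊆ R := by
  unfold J
  rw [mem_filter, mem_alive]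

lemma J_mono {R S : Finset X} (h : R ⊆ S) : J N U R ⊆ J N U S := by
  intro v hv
  rw [mem_J] at hv ⊢
  exact ⟨hv.1, hv.2.trans h⟩

@[simp] lemma J_empty : J N U (∅ : Finset X) = ∅ := by
  rw [eq_empty_iff_forall_notMem]
  intro v hv
  rw [mem_J, subset_empty] at hv
  rw [hv.2] at hv
  simp at hv

lemma J_inter {R S : Finset X} : J N U (R ∩ S) = J N U R ∩ J N U S := by
  ext v
  simp only [mem_J, mem_inter, subset_inter_iff]
  tauto

/-- The players which die when the targets of `R` are removed. -/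
lemma alive_sdiff_card {R : Finset X} :
    (alive N U).card = (J N U R).card + (alive N (U \ R)).card := by
  have h : alive N U = J N U R ∪ alive N (U \ R) := by
    ext v
    rw [mem_union, mem_alive, mem_J, mem_alive]
    constructor
    · intro hv
      by_cases h : N v ∩ U ⊆ R
      · exact Or.inl ⟨hv, h⟩
      · right
        rw [not_subset] at h
        obtain ⟨x, hx, hxR⟩ := h
        rw [mem_inter] at hx
        exact ⟨x, mem_inter.2 ⟨hx.1, mem_sdiff.2 ⟨hx.2, hxR⟩⟩⟩
    · rintro (h | h)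
      · exact h.1
      · exact h.mono (inter_subset_inter_left sdiff_subset)
  have hd : Disjoint (J N U R) (alive N (U \ R)) := by
    rw [disjoint_left]
    intro v h1 h2
    rw [mem_J] at h1
    rw [mem_alive] at h2
    obtain ⟨x, hx⟩ := h2
    rw [mem_inter, mem_sdiff] at hx
    exact hx.2.2 (h1.2 (mem_inter.2 ⟨hx.1, hx.2.1⟩))
  rw [h, card_union_of_disjoint hd]

lemma Phi_sdiff {R : Finset X} (hR : R ⊆ U \ Hv) :
    Phi N Hv U = R.card + (J N U R).card + Phi N Hv (U \ R) := by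
  unfold Phi
  rw [alive_sdiff_card (R := R)]
  have h1 : (U \ R).card + R.card = U.card :=
    card_sdiff_add_card_eq_card (hR.trans sdiff_subset)
  have h2 : (U \ R) ∩ Hv = U ∩ Hv := by
    ext x
    simp only [mem_inter, mem_sdiff]
    constructor
    · rintro ⟨⟨h1, h2⟩, h3⟩
      exact ⟨h1, h3⟩
    · rintro ⟨h1, h3⟩
      exact ⟨⟨h1, fun h => (mem_sdiff.1 (hR h)).2 h3⟩, h3⟩
  rw [h2]
  omega

/-! ### bad components, the functions `sf` and `GG` -/

lemma mem_bc {R K : Finset X} : K ∈ bc N Hv U R ↔ Closed N (U \ R) K ∧ Bad N Hv K := by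
  unfold bc
  simp only [Finset.mem_filter, mem_comps]
  constructor
  · intro h
    exact ⟨h.1.1, h.2⟩
  · intro h
    exact ⟨⟨h.1, h.2.1⟩, h.2⟩

lemma bc_subset_comps {R : Finset X} : bc N Hv U R ⊆ comps N (U \ R) := by
  intro K hK
  rw [mem_bc] at hK
  exact mem_comps.2 ⟨hK.1, hK.2.1⟩

open Classical in
/-- The components of `U \ R` which are not bad. -/
noncomputable def nb (N : V → Finset X) (Hv U R : Finset X) : Finset (Finset X) :=
  (comps N (U \ R)).filter fun K => ¬ Bad N Hv K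

/-- `2 ρ(R)`: the sum of `rho2` over the components of `U \ R` which are not bad. -/
noncomputable def rs (N : V → Finset X) (Hv U R : Finset X) : ℤ :=
  ∑ K ∈ nb N Hv U R, rho2 (Phi N Hv K)

lemma rho2_nonneg (p : ℕ) : 0 ≤ rho2 p := by
  unfold rho2
  split_ifs <;> norm_num

lemma rs_nonneg (R : Finset X) : 0 ≤ rs N Hv U R :=
  sum_nonneg fun _ _ => rho2_nonneg _

lemma gv_bad {K : Finset X} (h : Bad N Hv K) : 3 * gv N Hv K = 2 * (Phi N Hv K : ℤ) - 4 := by
  unfold gv
  rw [if_pos h]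
  have := h.2.2.1
  omega

lemma gv_not_bad {K : Finset X} (h : ¬ Bad N Hv K) :
    3 * gv N Hv K = 2 * (Phi N Hv K : ℤ) - rho2 (Phi N Hv K) := by
  unfold gv rho2
  rw [if_neg h]
  split_ifs <;> omega

lemma sum_comps_bad_nb {R : Finset X} (g : Finset X → ℤ) :
    ∑ K ∈ comps N (U \ R), g K = ∑ K ∈ bc N Hv U R, g K + ∑ K ∈ nb N Hv U R, g K := by
  classical
  unfold bc nb
  rw [← Finset.sum_filter_add_sum_filter_not (comps N (U \ R)) (fun K => Bad N Hv K) g]

/-- The formula for `G(R)`. -/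
lemma GG_formula {R : Finset X} (hR : R ⊆ U \ Hv) :
    3 * GG N Hv U R = 2 * (Phi N Hv U : ℤ) - 2 * sf N Hv U R - rs N Hv U R := by
  have h1 : (3 : ℤ) * ∑ K ∈ comps N (U \ R), gv N Hv K =
      2 * (Phi N Hv (U \ R) : ℤ) - 4 * ((bc N Hv U R).card : ℤ) - rs N Hv U R := by
    rw [mul_sum, sum_comps_bad_nb (Hv := Hv)]
    have h2 : (Phi N Hv (U \ R) : ℤ) = ∑ K ∈ bc N Hv U R, (Phi N Hv K : ℤ) +
        ∑ K ∈ nb N Hv U R, (Phi N Hv K : ℤ) := by
      rw [← sum_comps_bad_nb, Phi_eq_sum_comps]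
      push_cast
      rfl
    have h3 : ∑ K ∈ bc N Hv U R, 3 * gv N Hv K =
        2 * ∑ K ∈ bc N Hv U R, (Phi N Hv K : ℤ) - 4 * ((bc N Hv U R).card : ℤ) := by
      rw [mul_sum, sum_congr rfl (fun K hK => gv_bad (mem_bc.1 hK).2), sum_sub_distrib,
        sum_const, nsmul_eq_mul]
      ring
    have h4 : ∑ K ∈ nb N Hv U R, 3 * gv N Hv K =
        2 * ∑ K ∈ nb N Hv U R, (Phi N Hv K : ℤ) - rs N Hv U R := by
      unfold rs
      rw [mul_sum, ← sum_sub_distrib]
      refine sum_congr rfl fun K hK => gv_not_bad ?_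
      unfold nb at hK
      simp only [Finset.mem_filter] at hK
      exact hK.2
    rw [h3, h4, h2]
    ring
  unfold GG sf ph
  have h5 := Phi_sdiff (N := N) hR
  rw [mul_add, h1]
  have h6 : (Phi N Hv U : ℤ) = R.card + (J N U R).card + Phi N Hv (U \ R) := by
    exact_mod_cast h5
  rw [h6]
  ring

/-! ### removal of a set -/

lemma sdiff_sdiff_union {A B C : Finset X} : (A \ B) \ C = A \ (C ∪ B) := by
  ext x; simp only [mem_sdiff, mem_union]; tauto

lemma J_sdiff {Z R : Finset X} (_hR : R ⊆ U \ Z) :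
    (J N (U \ Z) R).card + (J N U Z).card = (J N U (R ∪ Z)).card := by
  have h : J N U (R ∪ Z) = J N (U \ Z) R ∪ J N U Z := by
    ext v
    rw [mem_union, mem_J, mem_J, mem_J]
    constructor
    · rintro ⟨h1, h2⟩
      by_cases h : N v ∩ U ⊆ Z
      · exact Or.inr ⟨h1, h⟩
      · left
        rw [not_subset] at h
        obtain ⟨x, hx, hxZ⟩ := h
        rw [mem_inter] at hx
        refine ⟨⟨x, mem_inter.2 ⟨hx.1, mem_sdiff.2 ⟨hx.2, hxZ⟩⟩⟩, ?_⟩
        intro y hy
        rw [mem_inter, mem_sdiff] at hy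
        have := h2 (mem_inter.2 ⟨hy.1, hy.2.1⟩)
        rw [mem_union] at this
        exact this.resolve_right hy.2.2
    · rintro (⟨h1, h2⟩ | ⟨h1, h2⟩)
      · refine ⟨h1.mono (inter_subset_inter_left sdiff_subset), ?_⟩
        intro y hy
        rw [mem_inter] at hy
        rw [mem_union]
        by_cases hyZ : y ∈ Z
        · exact Or.inr hyZ
        · exact Or.inl (h2 (mem_inter.2 ⟨hy.1, mem_sdiff.2 ⟨hy.2, hyZ⟩⟩))
      · exact ⟨h1, h2.trans subset_union_right⟩
  have hd : Disjoint (J N (U \ Z) R) (J N U Z) := by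
    rw [disjoint_left]
    intro v h1 h2
    rw [mem_J] at h1 h2
    obtain ⟨x, hx⟩ := h1.1
    rw [mem_inter, mem_sdiff] at hx
    exact hx.2.2 (h2.2 (mem_inter.2 ⟨hx.1, hx.2.1⟩))
  rw [h, card_union_of_disjoint hd]

lemma ph_sdiff {Z R : Finset X} (hR : R ⊆ U \ Z) :
    ph N (U \ Z) R = ph N U (R ∪ Z) - ph N U Z := by
  unfold ph
  have h1 := J_sdiff (N := N) hR
  have hd : Disjoint R Z := by
    rw [disjoint_left]
    intro x h1 h2
    exact (mem_sdiff.1 (hR h1)).2 h2
  rw [card_union_of_disjoint hd]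
  push_cast
  have h2 : ((J N (U \ Z) R).card : ℤ) + (J N U Z).card = (J N U (R ∪ Z)).card := by
    exact_mod_cast h1
  linarith

lemma sf_sdiff {Z R : Finset X} (hR : R ⊆ U \ Z) :
    sf N Hv (U \ Z) R = sf N Hv U (R ∪ Z) + ph N U Z := by
  unfold sf
  rw [ph_sdiff hR]
  unfold bc
  rw [sdiff_sdiff_union]
  ring

lemma GG_sdiff {Z R : Finset X} (hR : R ⊆ U \ Z) :
    GG N Hv (U \ Z) R = GG N Hv U (R ∪ Z) - 2 * (Z.card : ℤ) := by
  unfold GG
  have hd : Disjoint R Z := by
    rw [disjoint_left]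
    intro x h1 h2
    exact (mem_sdiff.1 (hR h1)).2 h2
  rw [card_union_of_disjoint hd, sdiff_sdiff_union]
  push_cast
  ring

/-! ### extremal values -/

lemma sf_le_F2 {R : Finset X} (hR : R ⊆ U \ Hv) : sf N Hv U R ≤ F2 N Hv U :=
  le_sup' (fun R => sf N Hv U R) (mem_powerset.2 hR)

lemma exists_F2 : ∃ R, R ⊆ U \ Hv ∧ sf N Hv U R = F2 N Hv U := by
  obtain ⟨R, hR, h⟩ := exists_mem_eq_sup' (s := (U \ Hv).powerset) ⟨∅, by simp⟩
    (fun R => sf N Hv U R)
  exact ⟨R, mem_powerset.1 hR, h.symm⟩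

lemma Gam_le_GG {R : Finset X} (hR : R ⊆ U \ Hv) : Gam N Hv U ≤ GG N Hv U R :=
  inf'_le (fun R => GG N Hv U R) (mem_powerset.2 hR)

lemma exists_Gam : ∃ R, R ⊆ U \ Hv ∧ GG N Hv U R = Gam N Hv U := by
  obtain ⟨R, hR, h⟩ := exists_mem_eq_inf' (s := (U \ Hv).powerset) ⟨∅, by simp⟩
    (fun R => GG N Hv U R)
  exact ⟨R, mem_powerset.1 hR, h.symm⟩

/-- The formula for `M(U \ Z)` : witnesses. -/
lemma MM_sdiff_le {Z R S : Finset X} (hZ : Z ⊆ U \ Hv) (hR : R ⊆ U \ Hv) (hZR : Z ⊆ R)
    (hF : ∀ T, T ⊆ U \ Hv → Z ⊆ T → sf N Hv U T ≤ sf N Hv U S) :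
    MM N Hv (U \ Z) ≤ sf N Hv U S + GG N Hv U R - ((J N U Z).card : ℤ) := by
  unfold MM
  obtain ⟨T, hT, hT'⟩ := exists_F2 (N := N) (Hv := Hv) (U := U \ Z)
  have hTZ : T ⊆ U \ Z := hT.trans sdiff_subset
  have hTH : T ⊆ U \ Hv := by
    intro x hx
    have := hT hx
    simp only [mem_sdiff] at this ⊢
    tauto
  have h1 : F2 N Hv (U \ Z) ≤ sf N Hv U S + ph N U Z := by
    rw [← hT', sf_sdiff hTZ]
    have := hF (T ∪ Z) (union_subset hTH hZ) subset_union_right
    linarith
  have hRZ : R \ Z ⊆ (U \ Z) \ Hv := by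
    intro x hx
    have h2 := (mem_sdiff.1 hx)
    have h3 := mem_sdiff.1 (hR h2.1)
    simp only [mem_sdiff]
    exact ⟨⟨h3.1, h2.2⟩, h3.2⟩
  have h2 : Gam N Hv (U \ Z) ≤ GG N Hv U R - 2 * (Z.card : ℤ) := by
    have h3 := Gam_le_GG (N := N) hRZ
    rw [GG_sdiff (hRZ.trans sdiff_subset), sdiff_union_of_subset hZR] at h3
    exact h3
  have h4 : ph N U Z = 2 * (Z.card : ℤ) - ((J N U Z).card : ℤ) := rfl
  linarith

end Pool.Agent.TDG
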