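import Mathlib
import Pool.Agent.Helper53_TDG.Comp

/-!
# Total domination game, bound 2/3: additivity of the potential, moves of a player with a heavy
target, reduction of the main theorem to connected positions
-/

set_option linter.unusedSectionVars false

namespace Pool.Agent.TDG

open Finset Helper77.TDG

variable {V X : Type*} [Fintype V] [DecidableEq V] [DecidableEq X]
variable {N : V → Finset X} {Hv U : Finset X}

/-! ### additivity -/

lemma J_closed_split {A R : Finset X} (hA : Closed N U A) (_hR : R ⊆ U) :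
    (J N U R).card = (J N A (R ∩ A)).card + (J N (U \ A) (R \ A)).card := by
  have h : J N U R = J N A (R ∩ A) ∪ J N (U \ A) (R \ A) := by
    ext v
    rw [mem_union, mem_J, mem_J, mem_J]
    constructor
    · rintro ⟨h1, h2⟩
      by_cases h : (N v ∩ A).Nonempty
      · left
        refine ⟨h, fun x hx => ?_⟩
        rw [mem_inter] at hx ⊢
        exact ⟨h2 (mem_inter.2 ⟨hx.1, hA.1 hx.2⟩), hx.2⟩
      · right
        have h3 : ∀ x ∈ N v, x ∉ A := fun x hx hxA => h ⟨x, mem_inter.2 ⟨hx, hxA⟩⟩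
        constructor
        · obtain ⟨x, hx⟩ := h1
          rw [mem_inter] at hx
          exact ⟨x, mem_inter.2 ⟨hx.1, mem_sdiff.2 ⟨hx.2, h3 x hx.1⟩⟩⟩
        · intro x hx
          rw [mem_inter, mem_sdiff] at hx
          exact mem_sdiff.2 ⟨h2 (mem_inter.2 ⟨hx.1, hx.2.1⟩), hx.2.2⟩
    · rintro (⟨h1, h2⟩ | ⟨h1, h2⟩)
      · have h3 := hA.2 v h1
        refine ⟨h1.mono (inter_subset_inter_left hA.1), fun x hx => ?_⟩
        have h4 := h3 hx
        rw [mem_inter] at hx
        exact (mem_inter.1 (h2 (mem_inter.2 ⟨hx.1, h4⟩))).1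
      · have h3 := hA.sdiff.2 v h1
        refine ⟨h1.mono (inter_subset_inter_left sdiff_subset), fun x hx => ?_⟩
        have h4 := h3 hx
        rw [mem_inter] at hx
        exact (mem_sdiff.1 (h2 (mem_inter.2 ⟨hx.1, h4⟩))).1
  have hd : Disjoint (J N A (R ∩ A)) (J N (U \ A) (R \ A)) := by
    rw [disjoint_left]
    intro v h1 h2
    rw [mem_J] at h1 h2
    exact hA.sep v h1.1 h2.1
  rw [h, card_union_of_disjoint hd]

lemma ph_split {A R : Finset X} (hA : Closed N U A) (hR : R ⊆ U) :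
    ph N U R = ph N A (R ∩ A) + ph N (U \ A) (R \ A) := by
  unfold ph
  have h1 := J_closed_split hA hR
  have h2 := card_inter_add_card_sdiff R A
  rw [h1, ← h2]
  push_cast
  ring

lemma sdiff_inter_eq {A R : Finset X} : A \ (R ∩ A) = A \ R := by
  ext x; simp only [mem_sdiff, mem_inter]; tauto

lemma sdiff_sdiff_eq {A R : Finset X} : (U \ A) \ (R \ A) = (U \ R) \ (A \ R) := by
  ext x; simp only [mem_sdiff]; tauto

lemma bc_split {A R : Finset X} (hA : Closed N U A) :
    bc N Hv U R = bc N Hv A (R ∩ A) ∪ bc N Hv (U \ A) (R \ A) := by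
  have hc : Closed N (U \ R) (A \ R) := hA.sdiff_closed R
  ext K
  rw [mem_union, mem_bc, mem_bc, mem_bc, sdiff_inter_eq, sdiff_sdiff_eq]
  have h1 : (Closed N (U \ R) K ∧ Bad N Hv K) ↔ (K ∈ comps N (U \ R) ∧ Bad N Hv K) := by
    rw [mem_comps]
    exact ⟨fun h => ⟨⟨h.1, h.2.1⟩, h.2⟩, fun h => ⟨h.1.1, h.2⟩⟩
  have h2 : (Closed N (A \ R) K ∧ Bad N Hv K) ↔ (K ∈ comps N (A \ R) ∧ Bad N Hv K) := by
    rw [mem_comps]
    exact ⟨fun h => ⟨⟨h.1, h.2.1⟩, h.2⟩, fun h => ⟨h.1.1, h.2⟩⟩
  have h3 : (Closed N ((U \ R) \ (A \ R)) K ∧ Bad N Hv K) ↔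
      (K ∈ comps N ((U \ R) \ (A \ R)) ∧ Bad N Hv K) := by
    rw [mem_comps]
    exact ⟨fun h => ⟨⟨h.1, h.2.1⟩, h.2⟩, fun h => ⟨h.1.1, h.2⟩⟩
  rw [h1, h2, h3, comps_split hc, mem_union]
  tauto

lemma bc_split_card {A R : Finset X} (hA : Closed N U A) :
    (bc N Hv U R).card = (bc N Hv A (R ∩ A)).card + (bc N Hv (U \ A) (R \ A)).card := by
  rw [bc_split hA, card_union_of_disjoint]
  have h := comps_split_disjoint (N := N) (U := U \ R) (A := A \ R)
  refine h.mono ?_ ?_
  · have := bc_subset_comps (N := N) (Hv := Hv) (U := A) (R := R ∩ A)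
    rwa [sdiff_inter_eq] at this
  · have := bc_subset_comps (N := N) (Hv := Hv) (U := U \ A) (R := R \ A)
    rwa [sdiff_sdiff_eq] at this

lemma sf_split {A R : Finset X} (hA : Closed N U A) (hR : R ⊆ U) :
    sf N Hv U R = sf N Hv A (R ∩ A) + sf N Hv (U \ A) (R \ A) := by
  unfold sf
  rw [ph_split hA hR, bc_split_card hA]
  push_cast
  ring

lemma GG_split {A R : Finset X} (hA : Closed N U A) :
    GG N Hv U R = GG N Hv A (R ∩ A) + GG N Hv (U \ A) (R \ A) := by
  unfold GG
  have hc : Closed N (U \ R) (A \ R) := hA.sdiff_closed R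
  rw [sdiff_inter_eq, sdiff_sdiff_eq, sum_comps_split hc]
  have h2 := card_inter_add_card_sdiff R A
  rw [← h2]
  push_cast
  ring

lemma union_inter_left' {A R S : Finset X} (hR : R ⊆ A) (hS : S ⊆ U \ A) :
    (R ∪ S) ∩ A = R := by
  ext x
  simp only [mem_inter, mem_union]
  constructor
  · rintro ⟨h1 | h1, h2⟩
    · exact h1
    · exact absurd h2 (mem_sdiff.1 (hS h1)).2
  · intro h
    exact ⟨Or.inl h, hR h⟩

lemma union_sdiff_left' {A R S : Finset X} (hR : R ⊆ A) (hS : S ⊆ U \ A) :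
    (R ∪ S) \ A = S := by
  ext x
  simp only [mem_sdiff, mem_union]
  constructor
  · rintro ⟨h1 | h1, h2⟩
    · exact absurd (hR h1) h2
    · exact h1
  · intro h
    exact ⟨Or.inr h, (mem_sdiff.1 (hS h)).2⟩

lemma F2_split {A : Finset X} (hA : Closed N U A) :
    F2 N Hv U = F2 N Hv A + F2 N Hv (U \ A) := by
  apply le_antisymm
  · obtain ⟨R, hR, h⟩ := exists_F2 (N := N) (Hv := Hv) (U := U)
    rw [← h, sf_split hA (hR.trans sdiff_subset)]
    refine add_le_add (sf_le_F2 ?_) (sf_le_F2 ?_)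
    · intro x hx
      rw [mem_inter] at hx
      exact mem_sdiff.2 ⟨hx.2, (mem_sdiff.1 (hR hx.1)).2⟩
    · intro x hx
      rw [mem_sdiff] at hx
      have := mem_sdiff.1 (hR hx.1)
      exact mem_sdiff.2 ⟨mem_sdiff.2 ⟨this.1, hx.2⟩, this.2⟩
  · obtain ⟨R, hR, h⟩ := exists_F2 (N := N) (Hv := Hv) (U := A)
    obtain ⟨S, hS, h'⟩ := exists_F2 (N := N) (Hv := Hv) (U := U \ A)
    have hRA : R ⊆ A := hR.trans sdiff_subset
    have hSA : S ⊆ U \ A := hS.trans sdiff_subset
    have hRS : R ∪ S ⊆ U \ Hv := by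
      refine union_subset (fun x hx => ?_) (fun x hx => ?_)
      · exact mem_sdiff.2 ⟨hA.1 (hRA hx), (mem_sdiff.1 (hR hx)).2⟩
      · exact mem_sdiff.2 ⟨(mem_sdiff.1 (hSA hx)).1, (mem_sdiff.1 (hS hx)).2⟩
    have := sf_le_F2 (N := N) hRS
    rw [sf_split hA (hRS.trans sdiff_subset), union_inter_left' hRA hSA,
      union_sdiff_left' hRA hSA, h, h'] at this
    exact this

lemma Gam_split {A : Finset X} (hA : Closed N U A) :
    Gam N Hv U = Gam N Hv A + Gam N Hv (U \ A) := by
  apply le_antisymm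
  · obtain ⟨R, hR, h⟩ := exists_Gam (N := N) (Hv := Hv) (U := A)
    obtain ⟨S, hS, h'⟩ := exists_Gam (N := N) (Hv := Hv) (U := U \ A)
    have hRA : R ⊆ A := hR.trans sdiff_subset
    have hSA : S ⊆ U \ A := hS.trans sdiff_subset
    have hRS : R ∪ S ⊆ U \ Hv := by
      refine union_subset (fun x hx => ?_) (fun x hx => ?_)
      · exact mem_sdiff.2 ⟨hA.1 (hRA hx), (mem_sdiff.1 (hR hx)).2⟩
      · exact mem_sdiff.2 ⟨(mem_sdiff.1 (hSA hx)).1, (mem_sdiff.1 (hS hx)).2⟩
    have := Gam_le_GG (N := N) hRS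
    rw [GG_split hA, union_inter_left' hRA hSA, union_sdiff_left' hRA hSA, h, h'] at this
    exact this
  · obtain ⟨R, hR, h⟩ := exists_Gam (N := N) (Hv := Hv) (U := U)
    rw [← h, GG_split hA]
    refine add_le_add (Gam_le_GG ?_) (Gam_le_GG ?_)
    · intro x hx
      rw [mem_inter] at hx
      exact mem_sdiff.2 ⟨hx.2, (mem_sdiff.1 (hR hx.1)).2⟩
    · intro x hx
      rw [mem_sdiff] at hx
      have := mem_sdiff.1 (hR hx.1)
      exact mem_sdiff.2 ⟨mem_sdiff.2 ⟨this.1, hx.2⟩, this.2⟩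

lemma MM_split {A : Finset X} (hA : Closed N U A) :
    MM N Hv U = MM N Hv A + MM N Hv (U \ A) := by
  unfold MM
  rw [F2_split hA, Gam_split hA]
  ring

/-! ### moves -/

/-- The ordinary targets hit by the player `v` at the position `U`. -/
def hit (N : V → Finset X) (Hv U : Finset X) (v : V) : Finset X := (N v ∩ U) \ Hv

lemma hit_subset {v : V} : hit N Hv U v ⊆ U \ Hv := by
  intro x hx
  unfold hit at hx
  simp only [mem_sdiff, mem_inter] at hx ⊢
  exact ⟨hx.1.2, hx.2⟩

/-- A move without heavy target. -/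
lemma sdiff_eq_hit {v : V} (h : Disjoint (N v ∩ U) Hv) : U \ N v = U \ hit N Hv U v := by
  ext x
  unfold hit
  simp only [mem_sdiff, mem_inter]
  constructor
  · rintro ⟨h1, h2⟩
    exact ⟨h1, fun h => h2 h.1.1⟩
  · rintro ⟨h1, h2⟩
    refine ⟨h1, fun h3 => h2 ⟨⟨h3, h1⟩, fun h4 => ?_⟩⟩
    exact (disjoint_left.1 h (mem_inter.2 ⟨h3, h1⟩)) h4

/-- The data of a player with a heavy target in `U`. -/
structure HeavyAt (N : V → Finset X) (Hv U : Finset X) (v : V) (h : X) : Prop where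
  mem : h ∈ N v
  memU : h ∈ U
  hv : h ∈ Hv
  only : ∀ w, h ∈ N w → w = v
  one : ∀ x ∈ N v, x ∈ Hv → x = h

lemma World.heavyAt (hW : World N Hv) {v : V} {h : X} (h1 : h ∈ N v ∩ U) (h2 : h ∈ Hv) :
    HeavyAt N Hv U v h := by
  rw [mem_inter] at h1
  refine ⟨h1.1, h1.2, h2, fun w hw => ?_, fun x hx hxH => ?_⟩
  · have := hW.one h h2
    rw [card_eq_one] at this
    obtain ⟨u, hu⟩ := this
    have hv' : v ∈ (univ.filter fun v => h ∈ N v) := by simp [h1.1]
    have hw' : w ∈ (univ.filter fun v => h ∈ N v) := by simp [hw]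
    rw [hu, mem_singleton] at hv' hw'
    rw [hv', hw']
  · have := hW.heavy v
    rw [card_le_one] at this
    exact this x (mem_inter.2 ⟨hx, hxH⟩) h (mem_inter.2 ⟨h1.1, h2⟩)

lemma World.heavy_cases (hW : World N Hv) (U : Finset X) (v : V) :
    Disjoint (N v ∩ U) Hv ∨ ∃ h, HeavyAt N Hv U v h := by
  by_cases hd : Disjoint (N v ∩ U) Hv
  · exact Or.inl hd
  · right
    rw [not_disjoint_iff] at hd
    obtain ⟨h, h1, h2⟩ := hd
    exact ⟨h, hW.heavyAt h1 h2⟩

lemma HeavyAt.sdiff_eq {v : V} {h : X} (H : HeavyAt N Hv U v h) :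
    U \ N v = (U \ hit N Hv U v) \ {h} := by
  ext x
  unfold hit
  simp only [mem_sdiff, mem_inter, mem_singleton]
  constructor
  · rintro ⟨h1, h2⟩
    refine ⟨⟨h1, fun h => h2 h.1.1⟩, ?_⟩
    rintro rfl
    exact h2 H.mem
  · rintro ⟨⟨h1, h2⟩, h3⟩
    refine ⟨h1, fun h4 => ?_⟩
    by_cases h5 : x ∈ Hv
    · exact h3 (H.one x h4 h5)
    · exact h2 ⟨⟨h4, h1⟩, h5⟩

lemma HeavyAt.not_mem_hit {v : V} {h : X} (H : HeavyAt N Hv U v h) : h ∉ hit N Hv U v := by
  unfold hit
  intro h1
  exact (mem_sdiff.1 h1).2 H.hv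

/-- In `U \ Z` the heavy target is a component. -/
lemma HeavyAt.closed {v : V} {h : X} (H : HeavyAt N Hv U v h) :
    Closed N (U \ hit N Hv U v) {h} := by
  constructor
  · intro x hx
    rw [mem_singleton] at hx
    subst hx
    exact mem_sdiff.2 ⟨H.memU, H.not_mem_hit⟩
  · intro w hw
    obtain ⟨x, hx⟩ := hw
    rw [mem_inter, mem_singleton] at hx
    obtain ⟨hx1, rfl⟩ := hx
    have := H.only w hx1
    subst this
    intro y hy
    rw [mem_inter, mem_sdiff] at hy
    rw [mem_singleton]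
    by_contra hne
    apply hy.2.2
    unfold hit
    rw [mem_sdiff, mem_inter]
    exact ⟨⟨hy.1, hy.2.1⟩, fun h5 => hne (H.one y hy.1 h5)⟩

lemma HeavyAt.phi {v : V} {h : X} (H : HeavyAt N Hv U v h) : Phi N Hv {h} = 3 := by
  unfold Phi
  have h1 : ({h} : Finset X) ∩ Hv = {h} := by
    rw [inter_eq_left, singleton_subset_iff]
    exact H.hv
  have h2 : alive N {h} = {v} := by
    ext w
    rw [mem_alive, mem_singleton]
    constructor
    · rintro ⟨x, hx⟩
      rw [mem_inter, mem_singleton] at hx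
      obtain ⟨hx1, rfl⟩ := hx
      exact H.only w hx1
    · rintro rfl
      exact ⟨h, mem_inter.2 ⟨H.mem, mem_singleton_self h⟩⟩
  rw [h1, h2]
  simp

lemma conn_singleton {x : X} : Conn N {x} := by
  refine ⟨singleton_nonempty x, fun D hD hc => ?_⟩
  rcases subset_singleton_iff.1 hc.1 with h | h
  · rw [h] at hD; simp at hD
  · exact h

lemma HeavyAt.not_bad {v : V} {h : X} (H : HeavyAt N Hv U v h) : ¬ Bad N Hv {h} := by
  intro hb
  have := hb.2.1.1
  rw [disjoint_singleton_left] at this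
  exact this H.hv

lemma HeavyAt.gv {v : V} {h : X} (H : HeavyAt N Hv U v h) : gv N Hv {h} = 2 := by
  have := gv_not_bad H.not_bad
  rw [H.phi] at this
  unfold rho2 at this
  norm_num at this
  omega

lemma HeavyAt.F2_heavy {v : V} {h : X} (H : HeavyAt N Hv U v h) :
    F2 N Hv {h} = 0 := by
  obtain ⟨R, hR, h1⟩ := exists_F2 (N := N) (Hv := Hv) (U := {h})
  have hR0 : R = ∅ := by
    rw [eq_empty_iff_forall_notMem]
    intro x hx
    have := hR hx
    rw [mem_sdiff, mem_singleton] at this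
    rw [this.1] at this
    exact this.2 H.hv
  subst hR0
  rw [← h1]
  unfold sf ph
  have h2 : bc N Hv {h} ∅ = ∅ := by
    rw [eq_empty_iff_forall_notMem]
    intro K hK
    rw [mem_bc, sdiff_empty] at hK
    have h3 := (conn_singleton (N := N) (x := h)).2 K hK.2.1.1 hK.1
    rw [h3] at hK
    exact H.not_bad hK.2
  rw [h2]
  simp

lemma HeavyAt.Gam_heavy {v : V} {h : X} (H : HeavyAt N Hv U v h) :
    Gam N Hv {h} = 2 := by
  obtain ⟨R, hR, h1⟩ := exists_Gam (N := N) (Hv := Hv) (U := {h})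
  have hR0 : R = ∅ := by
    rw [eq_empty_iff_forall_notMem]
    intro x hx
    have := hR hx
    rw [mem_sdiff, mem_singleton] at this
    rw [this.1] at this
    exact this.2 H.hv
  subst hR0
  rw [← h1]
  unfold GG
  rw [sdiff_empty, conn_singleton.comps, sum_singleton, H.gv]
  simp

lemma HeavyAt.MM_heavy {v : V} {h : X} (H : HeavyAt N Hv U v h) : MM N Hv {h} = 2 := by
  unfold MM
  rw [H.F2_heavy, H.Gam_heavy]
  rfl

/-- The potential after a move of a player with a heavy target: two less than the potential after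
the removal of the ordinary targets of the player. -/
lemma HeavyAt.MM_move {v : V} {h : X} (H : HeavyAt N Hv U v h) :
    MM N Hv (U \ N v) = MM N Hv (U \ hit N Hv U v) - 2 := by
  rw [MM_split H.closed, ← H.sdiff_eq, H.MM_heavy]
  ring

lemma MM_move_of_disjoint {v : V} (h : Disjoint (N v ∩ U) Hv) :
    MM N Hv (U \ N v) = MM N Hv (U \ hit N Hv U v) := by
  rw [← sdiff_eq_hit h]

lemma F2_nonneg : 0 ≤ F2 N Hv U := by
  have h := sf_le_F2 (N := N) (Hv := Hv) (U := U) (R := ∅) (empty_subset _)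
  have h1 : 0 ≤ sf N Hv U ∅ := by
    unfold sf ph
    rw [J_empty]
    simp
  exact h1.trans h

lemma gv_nonneg {K : Finset X} : 0 ≤ gv N Hv K := by
  by_cases h : Bad N Hv K
  · have h1 := gv_bad h
    have h2 := h.2.2.1
    omega
  · have h1 := gv_not_bad h
    unfold rho2 at h1
    split_ifs at h1 <;> omega

lemma Gam_nonneg : 0 ≤ Gam N Hv U := by
  obtain ⟨R, _, h⟩ := exists_Gam (N := N) (Hv := Hv) (U := U)
  rw [← h]
  unfold GG
  have : 0 ≤ ∑ K ∈ comps N (U \ R), gv N Hv K := sum_nonneg fun _ _ => gv_nonneg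
  positivity

lemma MM_nonneg : 0 ≤ MM N Hv U := add_nonneg F2_nonneg Gam_nonneg

/-- `3 M ≤ 2 Φ + 2 F`. -/
lemma three_MM_le : 3 * MM N Hv U ≤ 2 * (Phi N Hv U : ℤ) + F2 N Hv U := by
  obtain ⟨R, hR, h⟩ := exists_F2 (N := N) (Hv := Hv) (U := U)
  have h1 := GG_formula (N := N) hR
  have h2 := Gam_le_GG (N := N) hR
  have h3 := rs_nonneg (N := N) (Hv := Hv) (U := U) R
  unfold MM
  rw [h] at h1
  linarith

@[simp] lemma MM_empty : MM N Hv (∅ : Finset X) = 0 := by
  obtain ⟨R, hR, h1⟩ := exists_F2 (N := N) (Hv := Hv) (U := ∅)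
  obtain ⟨S, hS, h2⟩ := exists_Gam (N := N) (Hv := Hv) (U := ∅)
  have hR0 : R = ∅ := by
    rw [eq_empty_iff_forall_notMem]
    intro x hx
    have := hR hx
    simp at this
  have hS0 : S = ∅ := by
    rw [eq_empty_iff_forall_notMem]
    intro x hx
    have := hS hx
    simp at this
  subst hR0 hS0
  unfold MM
  rw [← h1, ← h2]
  have h3 : bc N Hv (∅ : Finset X) ∅ = ∅ := by
    rw [eq_empty_iff_forall_notMem]
    intro K hK
    have := bc_subset_comps hK
    simp at this
  unfold sf ph GG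
  rw [h3]
  simp

/-- The local statement for a connected nonempty position: it is enough to know the main theorem for
the smaller positions. -/
def ConnStmt : Prop :=
  ∀ (V X : Type) [Fintype V] [DecidableEq V] [DecidableEq X] (N : V → Finset X) (Hv U : Finset X),
    World N Hv → Conn N U → (∀ W, W ⊂ U → (ns N W : ℤ) ≤ MM N Hv W) → (ns N U : ℤ) ≤ MM N Hv U

theorem mainStmt_of_connStmt (h : ConnStmt) : MainStmt := by
  intro V X _ _ _ N Hv U hW
  have key : ∀ (k : ℕ) (U : Finset X), U.card ≤ k → (ns N U : ℤ) ≤ MM N Hv U := by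
    intro k
    induction k with
    | zero =>
      intro U hU
      have : U = ∅ := card_eq_zero.1 (by omega)
      subst this
      simp
    | succ k ih =>
      intro U hU
      by_cases hc : Conn N U
      · refine h V X N Hv U hW hc fun W hWU => ih W ?_
        have := card_lt_card hWU
        omega
      · rcases U.eq_empty_or_nonempty with rfl | ⟨x, hx⟩
        · simp
        · obtain ⟨K, hK, hxK⟩ := exists_comp (N := N) hx
          have hKU : K ≠ U := by
            rintro rfl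
            exact hc (comps_conn hK)
          have h1 := comps_closed hK
          have h2 : K ⊂ U := (comps_subset hK).ssubset_of_ne hKU
          have h3 := card_lt_card h2
          have h4 := card_pos.2 (comps_nonempty hK)
          have h5 := card_sdiff_of_subset (comps_subset hK)
          have h6 := ns_union h1.sep
          rw [union_sdiff_of_subset h1.1] at h6
          have h7 := ih K (by omega)
          have h8 := ih (U \ K) (by omega)
          rw [MM_split h1]
          have h9 : (ns N U : ℤ) ≤ ns N K + ns N (U \ K) := by exact_mod_cast h6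
          linarith
  exact key _ U le_rfl

/-- The conditions for a connected position: (a) the trivial bound for all moves, (b) a good move
if `M` is odd or 2 mod 4. -/
theorem ns_le_MM_of {U : Finset X}
    (hlow : ∀ W, W ⊂ U → (ns N W : ℤ) ≤ MM N Hv W)
    (h1 : ∀ v, (N v ∩ U).Nonempty → MM N Hv (U \ N v) + 1 ≤ MM N Hv U ∨
      (ns N (U \ N v) : ℤ) + 1 ≤ MM N Hv U)
    (h2 : MM N Hv U % 2 = 1 → ∃ v, (N v ∩ U).Nonempty ∧ ((ns N (U \ N v) : ℤ) + 3 ≤ MM N Hv U ∨
      MM N Hv (U \ N v) + 3 ≤ MM N Hv U))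
    (h3 : MM N Hv U % 4 = 2 → ∃ v, (N v ∩ U).Nonempty ∧ ((ns N (U \ N v) : ℤ) + 2 ≤ MM N Hv U ∨
      MM N Hv (U \ N v) + 2 ≤ MM N Hv U)) :
    (ns N U : ℤ) ≤ MM N Hv U := by
  have hss : ∀ v, (N v ∩ U).Nonempty → U \ N v ⊂ U := by
    intro v hv
    refine sdiff_subset.ssubset_of_ne fun h => ?_
    have := sdiff_card_lt hv
    rw [h] at this
    omega
  obtain ⟨m, hm⟩ := Int.eq_ofNat_of_zero_le (MM_nonneg (N := N) (Hv := Hv) (U := U))
  have : ns N U ≤ m := by
    refine ns_le_of_loc ⟨fun v hv => ?_, fun h => ?_, fun h => ?_⟩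
    · rcases h1 v hv with h | h
      · have := hlow _ (hss v hv)
        omega
      · omega
    · obtain ⟨v, hv, h'⟩ := h2 (by omega)
      refine ⟨v, hv, ?_⟩
      have := hlow _ (hss v hv)
      rcases h' with h' | h'
      · omega
      · omega
    · obtain ⟨v, hv, h'⟩ := h3 (by omega)
      refine ⟨v, hv, ?_⟩
      have := hlow _ (hss v hv)
      rcases h' with h' | h'
      · omega
      · omega
  rw [hm]
  exact_mod_cast this

end Pool.Agent.TDG
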