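import Mathlib
import Pool.Agent.Helper53_TDG.Split

/-!
# Total domination game, bound 2/3: the start splitting

`N` symmetric, all `N v` with at least two elements.  `R` a maximiser of `f`; the same sets are
read as sets of players: the bad components `K` of `univ \ R` are the dual clusters.
-/

set_option linter.unusedSectionVars false

namespace Pool.Agent.TDG

open Finset Helper77.TDG

/-! ### transfer of positions -/

section Transfer

variable {V X Y : Type*} [Fintype V] [DecidableEq V] [DecidableEq X] [DecidableEq Y]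

/-- The two positions `K` and `K.map f` are the same for all players. -/
def SameOn (N : V → Finset X) (N' : V → Finset Y) (f : X ↪ Y) (K : Finset X) : Prop :=
  ∀ v, ∀ x ∈ K, f x ∈ N' v ↔ x ∈ N v

variable {N : V → Finset X} {N' : V → Finset Y} {f : X ↪ Y}

lemma SameOn.mono {K L : Finset X} (h : SameOn N N' f K) (hL : L ⊆ K) : SameOn N N' f L :=
  fun v x hx => h v x (hL hx)

lemma SameOn.inter {K : Finset X} (h : SameOn N N' f K) (v : V) :
    N' v ∩ K.map f = (N v ∩ K).map f := by
  ext y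
  simp only [mem_inter, mem_map]
  constructor
  · rintro ⟨h1, x, hx, rfl⟩
    exact ⟨x, ⟨(h v x hx).1 h1, hx⟩, rfl⟩
  · rintro ⟨x, ⟨h1, hx⟩, rfl⟩
    exact ⟨(h v x hx).2 h1, x, hx, rfl⟩

lemma SameOn.sdiff {K : Finset X} (h : SameOn N N' f K) (v : V) :
    K.map f \ N' v = (K \ N v).map f := by
  ext y
  simp only [mem_sdiff, mem_map]
  constructor
  · rintro ⟨⟨x, hx, rfl⟩, h1⟩
    exact ⟨x, ⟨hx, fun h2 => h1 ((h v x hx).2 h2)⟩, rfl⟩
  · rintro ⟨x, ⟨hx, h1⟩, rfl⟩
    exact ⟨⟨x, hx, rfl⟩, fun h2 => h1 ((h v x hx).1 h2)⟩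

lemma SameOn.nonempty {K : Finset X} (h : SameOn N N' f K) (v : V) :
    (N' v ∩ K.map f).Nonempty ↔ (N v ∩ K).Nonempty := by
  rw [h.inter, map_nonempty]

lemma SameOn.ns {K : Finset X} (h : SameOn N N' f K) : ns N' (K.map f) = ns N K := by
  apply le_antisymm
  · refine ns_sim (N := N') (N' := N) (fun W U => U ⊆ K ∧ W = U.map f) ?_ ?_ K.card _ K le_rfl
      ⟨Subset.refl _, rfl⟩
    · rintro W U ⟨hU, rfl⟩ v hv
      exact ((h.mono hU).nonempty v).1 hv
    · rintro W U ⟨hU, rfl⟩ v
      exact ⟨sdiff_subset.trans hU, (h.mono hU).sdiff v⟩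
  · refine ns_sim (N := N) (N' := N') (fun U W => U ⊆ K ∧ W = U.map f) ?_ ?_ _ K (K.map f) le_rfl
      ⟨Subset.refl _, rfl⟩
    · rintro U W ⟨hU, rfl⟩ v hv
      exact ((h.mono hU).nonempty v).2 hv
    · rintro U W ⟨hU, rfl⟩ v
      exact ⟨sdiff_subset.trans hU, (h.mono hU).sdiff v⟩

lemma SameOn.closed {K D : Finset X} (h : SameOn N N' f K) (hD : D ⊆ K) :
    Closed N' (K.map f) (D.map f) ↔ Closed N K D := by
  unfold Closed
  refine and_congr (by rw [map_subset_map]) (forall_congr' fun v => ?_)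
  rw [(h.mono hD).nonempty, h.inter, map_subset_map]

lemma exists_map_of_subset {K : Finset X} {E : Finset Y} (h : E ⊆ K.map f) :
    ∃ D, D ⊆ K ∧ E = D.map f := by
  refine ⟨K.filter fun x => f x ∈ E, filter_subset _ _, ?_⟩
  ext y
  simp only [mem_map, mem_filter]
  constructor
  · intro hy
    obtain ⟨x, hx, rfl⟩ := mem_map.1 (h hy)
    exact ⟨x, ⟨hx, hy⟩, rfl⟩
  · rintro ⟨x, ⟨_, hx⟩, rfl⟩
    exact hx

lemma SameOn.conn {K : Finset X} (h : SameOn N N' f K) : Conn N' (K.map f) ↔ Conn N K := by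
  unfold Conn
  refine and_congr map_nonempty ?_
  constructor
  · intro H D hD hc
    have := H (D.map f) (map_nonempty.2 hD) ((h.closed hc.1).2 hc)
    exact map_injective f this
  · intro H E hE hc
    obtain ⟨D, hD, rfl⟩ := exists_map_of_subset hc.1
    rw [H D (map_nonempty.1 hE) ((h.closed hD).1 hc)]

lemma SameOn.alive {K : Finset X} (h : SameOn N N' f K) : alive N' (K.map f) = alive N K := by
  ext v
  rw [mem_alive, mem_alive, h.nonempty]

lemma SameOn.bad {K : Finset X} {Hv : Finset X} {Hv' : Finset Y} (h : SameOn N N' f K)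
    (hd : Disjoint K Hv) (hb : Bad N' Hv' (K.map f)) : Bad N Hv K := by
  obtain ⟨h1, h2, h3, h4⟩ := hb
  have hP : Phi N' Hv' (K.map f) = Phi N Hv K := by
    unfold Phi
    have e1 : K.map f ∩ Hv' = ∅ := disjoint_iff_inter_eq_empty.1 h2.1
    have e2 : K ∩ Hv = ∅ := disjoint_iff_inter_eq_empty.1 hd
    rw [e1, e2, card_map, h.alive]
    rfl
  rw [hP] at h3 h4
  rw [h.ns] at h4
  refine ⟨h.conn.1 h1, ⟨hd, fun v hv => ?_⟩, h3, h4⟩
  have := h2.2 v ((h.nonempty v).2 hv)
  rwa [h.inter, card_map] at this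

end Transfer

/-! ### positions in which all targets have at most two players -/

section Dual

variable {V X : Type*} [Fintype V] [DecidableEq V] [DecidableEq X]
variable {N : V → Finset X} {Hv : Finset X}

lemma double_count {K : Finset X} {A : Finset V} :
    ∑ v ∈ A, (N v ∩ K).card = ∑ x ∈ K, (A.filter fun v => x ∈ N v).card := by
  have h1 : ∀ v ∈ A, (N v ∩ K).card = (K.filter fun x => x ∈ N v).card := by
    intro v _
    congr 1
    ext x
    simp only [mem_inter, mem_filter]
    tauto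
  rw [sum_congr rfl h1]
  exact sum_card_bipartiteAbove_eq_sum_card_bipartiteBelow (fun v x => x ∈ N v)

/-- If all targets of `W` have exactly two players then `2F ≤ 0`. -/
lemma F2_dual {W : Finset X} (hW : ∀ x ∈ W, (univ.filter fun v => x ∈ N v).card = 2) :
    F2 N Hv W ≤ 0 := by
  obtain ⟨R, hR, h⟩ := exists_F2 (N := N) (Hv := Hv) (U := W)
  rw [← h]
  have hRW : R ⊆ W := hR.trans sdiff_subset
  have hbc : bc N Hv W R = ∅ := by
    rw [eq_empty_iff_forall_notMem]
    intro K hK
    rw [mem_bc] at hK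
    obtain ⟨hc, hb⟩ := hK
    have hKW : K ⊆ W := hc.1.trans sdiff_subset
    have h1 : ∑ v ∈ (univ : Finset V), (N v ∩ K).card = 2 * K.card := by
      rw [double_count, sum_congr rfl (fun x hx => hW x (hKW hx)), sum_const, smul_eq_mul]
      ring
    have h2 : ∑ v ∈ (univ : Finset V), (N v ∩ K).card = 2 * (alive N K).card := by
      rw [← sum_filter_add_sum_filter_not univ (fun v => (N v ∩ K).Nonempty)]
      have e1 : ∑ v ∈ univ.filter (fun v => (N v ∩ K).Nonempty), (N v ∩ K).card
          = 2 * (alive N K).card := by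
        rw [sum_congr rfl (fun v hv => hb.2.1.2 v (mem_filter.1 hv).2), sum_const, smul_eq_mul]
        have : alive N K = univ.filter (fun v => (N v ∩ K).Nonempty) := by
          ext v; rw [mem_alive, mem_filter]; simp
        rw [this]
        ring
      have e2 : ∑ v ∈ univ.filter (fun v => ¬ (N v ∩ K).Nonempty), (N v ∩ K).card = 0 := by
        apply sum_eq_zero
        intro v hv
        have := (mem_filter.1 hv).2
        rw [not_nonempty_iff_eq_empty] at this
        rw [this]
        rfl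
      rw [e1, e2]
      rfl
    have h3 := hb.2.2.1
    unfold Phi at h3
    have e3 : K ∩ Hv = ∅ := disjoint_iff_inter_eq_empty.1 hb.2.1.1
    rw [e3] at h3
    simp only [card_empty] at h3
    omega
  have hJ : (J N W R).card ≤ 2 * R.card := by
    have h1 : J N W R ⊆ R.biUnion fun x => univ.filter fun v => x ∈ N v := by
      intro v hv
      rw [mem_J] at hv
      obtain ⟨x, hx⟩ := hv.1
      have := hv.2 hx
      rw [mem_biUnion]
      exact ⟨x, this, by simp [(mem_inter.1 hx).1]⟩
    refine (card_le_card h1).trans (card_biUnion_le.trans ?_)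
    rw [sum_congr rfl (fun x hx => hW x (hRW hx)), sum_const, smul_eq_mul]
    omega
  unfold sf ph
  rw [hbc]
  simp only [card_empty]
  push_cast
  have : ((J N W R).card : ℤ) ≤ 2 * R.card := by exact_mod_cast hJ
  linarith

end Dual

/-! ### the start splitting -/

section Start

variable {V : Type} [Fintype V] [DecidableEq V]

/-- The players of the dual clusters. -/
noncomputable def VS (N : V → Finset V) (R : Finset V) : Finset V :=
  (bc N ∅ univ R).biUnion id

/-- The targets of the dual clusters. -/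
noncomputable def ES (N : V → Finset V) (R : Finset V) : Finset V := alive N (VS N R)

/-- The targets all of whose players are in `R`. -/
noncomputable def JS (N : V → Finset V) (R : Finset V) : Finset V := J N univ R

/-- The imagined targets. -/
abbrev YT (R : Finset V) : Type := V ⊕ {w // w ∈ R}

open Classical in
/-- The imagined game. -/
noncomputable def NS' (N : V → Finset V) (R : Finset V) (v : V) : Finset (YT R) :=
  univ.filter fun y => match y with
    | Sum.inl x => x ∈ N v ∧ (v ∈ VS N R ∨ x ∉ ES N R)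
    | Sum.inr w => w.1 = v

/-- The imagined heavy targets. -/
noncomputable def HV (R : Finset V) : Finset (YT R) := univ.map Function.Embedding.inr

variable {N : V → Finset V} {R : Finset V}

@[simp] lemma mem_NS'_inl {v x : V} :
    (Sum.inl x : YT R) ∈ NS' N R v ↔ x ∈ N v ∧ (v ∈ VS N R ∨ x ∉ ES N R) := by
  unfold NS'
  simp only [Finset.mem_filter, mem_univ, true_and]

@[simp] lemma mem_NS'_inr {v : V} {w : {w // w ∈ R}} :
    (Sum.inr w : YT R) ∈ NS' N R v ↔ w.1 = v := by
  unfold NS'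
  simp only [Finset.mem_filter, mem_univ, true_and]

@[simp] lemma mem_HV_inl {x : V} : (Sum.inl x : YT R) ∉ HV R := by
  unfold HV
  simp

@[simp] lemma mem_HV_inr {w : {w // w ∈ R}} : (Sum.inr w : YT R) ∈ HV R := by
  unfold HV
  simp

lemma mem_VS {v : V} : v ∈ VS N R ↔ ∃ K ∈ bc N ∅ univ R, v ∈ K := by
  unfold VS
  rw [mem_biUnion]
  rfl

lemma VS_not_R {v : V} (h : v ∈ VS N R) : v ∉ R := by
  obtain ⟨K, hK, hv⟩ := mem_VS.1 h
  rw [mem_bc] at hK
  exact (mem_sdiff.1 (hK.1.1 hv)).2

lemma mem_ES {x : V} : x ∈ ES N R ↔ ∃ K ∈ bc N ∅ univ R, (N x ∩ K).Nonempty := by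
  unfold ES
  rw [mem_alive]
  constructor
  · rintro ⟨v, hv⟩
    rw [mem_inter, mem_VS] at hv
    obtain ⟨K, hK, hvK⟩ := hv.2
    exact ⟨K, hK, v, mem_inter.2 ⟨hv.1, hvK⟩⟩
  · rintro ⟨K, hK, v, hv⟩
    rw [mem_inter] at hv
    exact ⟨v, mem_inter.2 ⟨hv.1, mem_VS.2 ⟨K, hK, hv.2⟩⟩⟩

lemma mem_JS {x : V} : x ∈ JS N R ↔ (N x).Nonempty ∧ N x ⊆ R := by
  unfold JS
  rw [mem_J, inter_univ]

/-- The players of a target of a dual cluster: in the cluster or in `R`. -/
lemma player_of_cluster {K : Finset V} (hK : K ∈ bc N ∅ univ R) {x v : V}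
    (hx : (N x ∩ K).Nonempty) (hv : v ∈ N x) : v ∈ K ∨ v ∈ R := by
  rw [mem_bc] at hK
  by_cases h : v ∈ R
  · exact Or.inr h
  · left
    exact hK.1.2 x hx (mem_inter.2 ⟨hv, by simp [h]⟩)

lemma bc_disjoint {K L : Finset V} (hK : K ∈ bc N ∅ univ R) (hL : L ∈ bc N ∅ univ R)
    (h : K ≠ L) : Disjoint K L :=
  comps_disjoint (bc_subset_comps hK) (bc_subset_comps hL) h

lemma inter_VS {K : Finset V} (hK : K ∈ bc N ∅ univ R) {x : V} (hx : (N x ∩ K).Nonempty) :
    N x ∩ VS N R = N x ∩ K := by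
  ext v
  rw [mem_inter, mem_inter]
  constructor
  · rintro ⟨h1, h2⟩
    refine ⟨h1, ?_⟩
    rcases player_of_cluster hK hx h1 with h | h
    · exact h
    · exact absurd h (VS_not_R h2)
  · rintro ⟨h1, h2⟩
    exact ⟨h1, mem_VS.2 ⟨K, hK, h2⟩⟩

/-- The standing assumptions. -/
structure Sym (N : V → Finset V) : Prop where
  sym : ∀ v x, x ∈ N v ↔ v ∈ N x
  two : ∀ v, 2 ≤ (N v).card

lemma filter_mem_eq (hN : Sym N) (x : V) : (univ.filter fun v => x ∈ N v) = N x := by
  ext v
  rw [mem_filter, hN.sym v x]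
  simp

lemma players_ES (hN : Sym N) {x : V} (hx : x ∈ ES N R) :
    (univ.filter fun v => (Sum.inl x : YT R) ∈ NS' N R v).card = 2 := by
  obtain ⟨K, hK, h⟩ := mem_ES.1 hx
  have h1 : (univ.filter fun v => (Sum.inl x : YT R) ∈ NS' N R v) = N x ∩ K := by
    rw [← inter_VS hK h]
    ext v
    simp only [mem_filter, mem_univ, true_and, mem_NS'_inl, mem_inter]
    rw [hN.sym v x]
    constructor
    · rintro ⟨h2, h3 | h3⟩
      · exact ⟨h2, h3⟩
      · exact absurd hx h3
    · rintro ⟨h2, h3⟩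
      exact ⟨h2, Or.inl h3⟩
  rw [h1]
  exact (mem_bc.1 hK).2.2.1.2 x h

lemma world_start (hN : Sym N) : World (NS' N R) (HV R) := by
  refine ⟨?_, ?_, ?_⟩
  · rintro (x | w) hx
    · by_cases hE : x ∈ ES N R
      · rw [players_ES hN hE]
      · have h1 : (univ.filter fun v => (Sum.inl x : YT R) ∈ NS' N R v) = N x := by
          rw [← filter_mem_eq hN x]
          ext v
          simp [hE]
        rw [h1]
        exact hN.two x
    · exact absurd mem_HV_inr hx
  · rintro (x | w) hx
    · exact absurd hx mem_HV_inl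
    · have h1 : (univ.filter fun v => (Sum.inr w : YT R) ∈ NS' N R v) = {w.1} := by
        ext v
        simp [eq_comm]
      rw [h1, card_singleton]
  · intro v
    rw [card_le_one]
    rintro (x | w) ha (y | u) hb
    · exact absurd (mem_inter.1 ha).2 mem_HV_inl
    · exact absurd (mem_inter.1 ha).2 mem_HV_inl
    · exact absurd (mem_inter.1 hb).2 mem_HV_inl
    · rw [mem_inter, mem_NS'_inr] at ha hb
      congr 1
      exact Subtype.ext (ha.1.trans hb.1.symm)

/-- The position of a dual cluster. -/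
noncomputable def PK (N : V → Finset V) (R K : Finset V) : Finset (YT R) :=
  (alive N K).map Function.Embedding.inl

/-- The rest. -/
noncomputable def YY (N : V → Finset V) (R : Finset V) : Finset (YT R) :=
  ((univ \ ES N R) \ JS N R).map Function.Embedding.inl ∪ HV R

@[simp] lemma mem_PK_inl {K : Finset V} {x : V} :
    (Sum.inl x : YT R) ∈ PK N R K ↔ (N x ∩ K).Nonempty := by
  unfold PK
  rw [mem_map]
  constructor
  · rintro ⟨y, hy, h⟩
    have : y = x := by simpa using h
    rw [← this]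
    exact mem_alive.1 hy
  · intro h
    exact ⟨x, mem_alive.2 h, rfl⟩

@[simp] lemma mem_PK_inr {K : Finset V} {w : {w // w ∈ R}} :
    (Sum.inr w : YT R) ∉ PK N R K := by
  unfold PK
  simp

@[simp] lemma mem_YY_inl {x : V} :
    (Sum.inl x : YT R) ∈ YY N R ↔ x ∉ ES N R ∧ x ∉ JS N R := by
  unfold YY
  rw [mem_union, mem_map]
  constructor
  · rintro (⟨y, hy, h⟩ | h)
    · have : y = x := by simpa using h
      rw [← this]
      simpa using hy
    · exact absurd h mem_HV_inl
  · intro h
    left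
    exact ⟨x, by simp [h], rfl⟩

@[simp] lemma mem_YY_inr {w : {w // w ∈ R}} : (Sum.inr w : YT R) ∈ YY N R := by
  unfold YY
  rw [mem_union]
  exact Or.inr mem_HV_inr

/-- The imagined start position. -/
noncomputable def W0 (N : V → Finset V) (R : Finset V) : Finset (YT R) :=
  (bc N ∅ univ R).biUnion (PK N R) ∪ YY N R

lemma sim_start (hN : Sym N) : ns N univ ≤ ns (NS' N R) (W0 N R) := by
  refine ns_sim (N := N) (N' := NS' N R) (fun U W => ∀ x ∈ U, (x ∉ JS N R → Sum.inl x ∈ W) ∧
    ∀ w : {w // w ∈ R}, w.1 ∈ N x → (x ∈ ES N R ∨ x ∈ JS N R) → Sum.inr w ∈ W) ?_ ?_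
    _ univ (W0 N R) le_rfl ?_
  · intro U W hR v hv
    obtain ⟨x, hx⟩ := hv
    rw [mem_inter] at hx
    obtain ⟨h1, h2⟩ := hR x hx.2
    have hvx : v ∈ N x := (hN.sym v x).1 hx.1
    by_cases hvS : v ∈ VS N R
    · have hxJ : x ∉ JS N R := by
        intro h
        exact VS_not_R hvS ((mem_JS.1 h).2 hvx)
      exact ⟨Sum.inl x, mem_inter.2 ⟨by simp [hx.1, hvS], h1 hxJ⟩⟩
    · by_cases hE : x ∈ ES N R
      · obtain ⟨K, hK, h⟩ := mem_ES.1 hE
        have hvR : v ∈ R := by
          rcases player_of_cluster hK h hvx with h' | h'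
          · exact absurd (mem_VS.2 ⟨K, hK, h'⟩) hvS
          · exact h'
        exact ⟨Sum.inr ⟨v, hvR⟩, mem_inter.2 ⟨by simp, h2 ⟨v, hvR⟩ hvx (Or.inl hE)⟩⟩
      · by_cases hJ : x ∈ JS N R
        · have hvR : v ∈ R := (mem_JS.1 hJ).2 hvx
          exact ⟨Sum.inr ⟨v, hvR⟩, mem_inter.2 ⟨by simp, h2 ⟨v, hvR⟩ hvx (Or.inr hJ)⟩⟩
        · exact ⟨Sum.inl x, mem_inter.2 ⟨by simp [hx.1, hE], h1 hJ⟩⟩
  · intro U W hR v x hx
    rw [mem_sdiff] at hx
    obtain ⟨h1, h2⟩ := hR x hx.1
    refine ⟨fun hJ => ?_, fun w hw h => ?_⟩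
    · rw [mem_sdiff]
      exact ⟨h1 hJ, fun h => hx.2 (mem_NS'_inl.1 h).1⟩
    · rw [mem_sdiff]
      refine ⟨h2 w hw h, fun h3 => hx.2 ?_⟩
      rw [mem_NS'_inr] at h3
      rw [hN.sym v x, ← h3]
      exact hw
  · intro x _
    unfold W0
    refine ⟨fun hJ => ?_, fun w _ _ => ?_⟩
    · rw [mem_union]
      by_cases hE : x ∈ ES N R
      · left
        obtain ⟨K, hK, h⟩ := mem_ES.1 hE
        rw [mem_biUnion]
        exact ⟨K, hK, mem_PK_inl.2 h⟩
      · exact Or.inr (mem_YY_inl.2 ⟨hE, hJ⟩)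
    · exact mem_union_right _ mem_YY_inr

/-- A player meeting the position of a dual cluster belongs to the cluster. -/
lemma mem_of_meets_PK (hN : Sym N) {K : Finset V} (hK : K ∈ bc N ∅ univ R) {v : V}
    (hv : (NS' N R v ∩ PK N R K).Nonempty) : v ∈ K := by
  obtain ⟨y, hy⟩ := hv
  rw [mem_inter] at hy
  rcases y with x | w
  · rw [mem_NS'_inl, mem_PK_inl] at hy
    obtain ⟨⟨h1, h2⟩, h3⟩ := hy
    have hE : x ∈ ES N R := mem_ES.2 ⟨K, hK, h3⟩
    have hvS : v ∈ VS N R := h2.resolve_right (fun h => h hE)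
    rcases player_of_cluster hK h3 ((hN.sym v x).1 h1) with h | h
    · exact h
    · exact absurd h (VS_not_R hvS)
  · exact absurd hy.2 mem_PK_inr

lemma sep_PK (hN : Sym N) {K L : Finset V} (hK : K ∈ bc N ∅ univ R) (hL : L ∈ bc N ∅ univ R)
    (h : K ≠ L) : Sep (NS' N R) (PK N R K) (PK N R L) := by
  intro v h1 h2
  exact (disjoint_left.1 (bc_disjoint hK hL h)) (mem_of_meets_PK hN hK h1)
    (mem_of_meets_PK hN hL h2)

lemma NS'_cluster {K : Finset V} (hK : K ∈ bc N ∅ univ R) {v : V} (hv : v ∈ K) :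
    NS' N R v = (N v).map Function.Embedding.inl := by
  have hvS : v ∈ VS N R := mem_VS.2 ⟨K, hK, hv⟩
  ext y
  rcases y with x | w
  · rw [mem_NS'_inl, mem_map]
    constructor
    · rintro ⟨h1, _⟩
      exact ⟨x, h1, rfl⟩
    · rintro ⟨z, hz, h⟩
      have : z = x := by simpa using h
      rw [← this]
      exact ⟨hz, Or.inl hvS⟩
  · rw [mem_NS'_inr, mem_map]
    constructor
    · intro h
      exact absurd (h ▸ w.2) (VS_not_R hvS)
    · rintro ⟨z, _, h⟩
      simp at h

lemma NS'_cluster_subset (hN : Sym N) {K : Finset V} (hK : K ∈ bc N ∅ univ R) {v : V}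
    (hv : v ∈ K) : NS' N R v ⊆ PK N R K := by
  rw [NS'_cluster hK hv]
  intro y hy
  rw [mem_map] at hy
  obtain ⟨x, hx, rfl⟩ := hy
  refine mem_PK_inl.2 ⟨v, mem_inter.2 ⟨(hN.sym v x).1 hx, hv⟩⟩

lemma sep_PK_YY (hN : Sym N) {K : Finset V} (hK : K ∈ bc N ∅ univ R) :
    Sep (NS' N R) (PK N R K) (YY N R) := by
  intro v h1 h2
  have hv := mem_of_meets_PK hN hK h1
  obtain ⟨y, hy⟩ := h2
  rw [mem_inter] at hy
  have h3 := NS'_cluster_subset hN hK hv hy.1
  rcases y with x | w
  · rw [mem_PK_inl] at h3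
    rw [mem_YY_inl] at hy
    exact hy.2.1 (mem_ES.2 ⟨K, hK, h3⟩)
  · exact absurd h3 mem_PK_inr

lemma Sep.biUnion {X V ι : Type*} [Fintype V] [DecidableEq V] [DecidableEq X] {N : V → Finset X}
    {S : Finset ι} {P : ι → Finset X} {A : Finset X} (h : ∀ i ∈ S, Sep N A (P i)) :
    Sep N A (S.biUnion P) := by
  intro v h1 h2
  obtain ⟨x, hx⟩ := h2
  rw [mem_inter, mem_biUnion] at hx
  obtain ⟨hx1, i, hi, hx2⟩ := hx
  exact h i hi v h1 ⟨x, mem_inter.2 ⟨hx1, hx2⟩⟩

lemma Sep.union {X V : Type*} [Fintype V] [DecidableEq V] [DecidableEq X] {N : V → Finset X}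
    {A B C : Finset X} (h1 : Sep N A B) (h2 : Sep N A C) : Sep N A (B ∪ C) := by
  intro v h3 h4
  rw [inter_union_distrib_left, union_nonempty] at h4
  rcases h4 with h4 | h4
  · exact h1 v h3 h4
  · exact h2 v h3 h4

lemma ns_biUnion {X V ι : Type*} [Fintype V] [DecidableEq V] [DecidableEq X] [DecidableEq ι]
    {N : V → Finset X} (S : Finset ι) (P : ι → Finset X) (Y : Finset X)
    (h1 : ∀ i ∈ S, ∀ j ∈ S, i ≠ j → Sep N (P i) (P j)) (h2 : ∀ i ∈ S, Sep N (P i) Y) :
    ns N (S.biUnion P ∪ Y) ≤ ∑ i ∈ S, ns N (P i) + ns N Y := by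
  induction S using Finset.induction_on with
  | empty => simp
  | insert i S hi ih =>
    rw [biUnion_insert, sum_insert hi, union_assoc]
    have h3 := ih (fun j hj k hk => h1 j (mem_insert_of_mem hj) k (mem_insert_of_mem hk))
      (fun j hj => h2 j (mem_insert_of_mem hj))
    have h4 : Sep N (P i) (S.biUnion P ∪ Y) := by
      refine Sep.union (Sep.biUnion fun j hj => ?_) (h2 i (mem_insert_self i S))
      exact h1 i (mem_insert_self i S) j (mem_insert_of_mem hj) (by rintro rfl; exact hi hj)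
    have h5 := ns_union h4
    omega

lemma alive_PK (hN : Sym N) {K : Finset V} (hK : K ∈ bc N ∅ univ R) :
    alive (NS' N R) (PK N R K) = K := by
  ext v
  rw [mem_alive]
  constructor
  · exact mem_of_meets_PK hN hK
  · intro hv
    have h1 := NS'_cluster_subset hN hK hv
    rw [inter_eq_left.2 h1, NS'_cluster hK hv, map_nonempty]
    have := hN.two v
    rw [← card_pos]
    omega

lemma Phi_PK (hN : Sym N) {K : Finset V} (hK : K ∈ bc N ∅ univ R) :
    Phi (NS' N R) (HV R) (PK N R K) = Phi N ∅ K := by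
  unfold Phi
  rw [alive_PK hN hK]
  have h1 : PK N R K ∩ HV R = ∅ := by
    ext y
    rcases y with x | w
    · simp
    · simp
  rw [h1, inter_empty]
  unfold PK
  rw [card_map]
  simp only [card_empty]
  omega

/-- The targets of a subposition of a dual cluster have exactly two players. -/
lemma players_PK (hN : Sym N) {K : Finset V} (hK : K ∈ bc N ∅ univ R) {W : Finset (YT R)}
    (hW : W ⊆ PK N R K) : ∀ y ∈ W, (univ.filter fun v => y ∈ NS' N R v).card = 2 := by
  intro y hy
  have h1 := hW hy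
  rcases y with x | w
  · exact players_ES hN (mem_ES.2 ⟨K, hK, mem_PK_inl.1 h1⟩)
  · exact absurd h1 mem_PK_inr

lemma ns_sub_PK (hM : MainStmt) (hN : Sym N) {K : Finset V} (hK : K ∈ bc N ∅ univ R)
    {W : Finset (YT R)} (hW : W ⊆ PK N R K) :
    3 * ns (NS' N R) W ≤ 2 * Phi (NS' N R) (HV R) W := by
  have h1 := hM V (YT R) (NS' N R) (HV R) W (world_start hN)
  have h2 := three_MM_le (N := NS' N R) (Hv := HV R) (U := W)
  have h3 := F2_dual (Hv := HV R) (players_PK hN hK hW)
  have : (3 * ns (NS' N R) W : ℤ) ≤ 2 * Phi (NS' N R) (HV R) W := by linarith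
  exact_mod_cast this

lemma Phi_move_PK (hN : Sym N) {K : Finset V} (hK : K ∈ bc N ∅ univ R) {v : V} (hv : v ∈ K) :
    Phi (NS' N R) (HV R) (PK N R K \ NS' N R v) + (N v).card + 1 ≤ Phi N ∅ K := by
  rw [← Phi_PK hN hK]
  unfold Phi
  have h1 : (PK N R K \ NS' N R v).card + (NS' N R v).card = (PK N R K).card :=
    card_sdiff_add_card_eq_card (NS'_cluster_subset hN hK hv)
  have h2 : (NS' N R v).card = (N v).card := by
    rw [NS'_cluster hK hv, card_map]
  have h3 : ((PK N R K \ NS' N R v) ∩ HV R).card ≤ (PK N R K ∩ HV R).card :=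
    card_le_card (inter_subset_inter_right sdiff_subset)
  have h4 : (alive (NS' N R) (PK N R K \ NS' N R v)).card + 1 ≤
      (alive (NS' N R) (PK N R K)).card := by
    have : insert v (alive (NS' N R) (PK N R K \ NS' N R v)) ⊆ alive (NS' N R) (PK N R K) := by
      intro u hu
      rw [mem_insert] at hu
      rcases hu with rfl | hu
      · rw [alive_PK hN hK]; exact hv
      · exact alive_mono sdiff_subset hu
    have h5 := card_le_card this
    rw [card_insert_of_notMem] at h5
    · exact h5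
    · rw [mem_alive]
      rintro ⟨y, hy⟩
      rw [mem_inter, mem_sdiff] at hy
      exact hy.2.2 hy.1
  omega

/-- A dual cluster. -/
lemma ns_PK (hM : MainStmt) (hN : Sym N) {K : Finset V} (hK : K ∈ bc N ∅ univ R) :
    3 * ns (NS' N R) (PK N R K) + 4 ≤ 2 * Phi N ∅ K := by
  have hb := (mem_bc.1 hK).2
  have h5 := hb.2.2.1
  obtain ⟨j, hj⟩ : ∃ j, Phi N ∅ K = 6 * j + 5 := ⟨Phi N ∅ K / 6, by omega⟩
  have hmove : ∀ v ∈ K, 3 * ns (NS' N R) (PK N R K \ NS' N R v) + 2 * (N v).card + 2 ≤
      2 * (6 * j + 5) := by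
    intro v hv
    have h1 := Phi_move_PK hN hK hv
    have h2 := ns_sub_PK hM hN hK (W := PK N R K \ NS' N R v) sdiff_subset
    omega
  have : ns (NS' N R) (PK N R K) ≤ 4 * j + 2 := by
    refine ns_le_of_loc ⟨fun v hv => ?_, fun h => ?_, fun _ => ?_⟩
    · have hvK := mem_of_meets_PK hN hK hv
      have h1 := hmove v hvK
      have h2 := hN.two v
      omega
    · omega
    · -- a player with three targets
      by_contra hcon
      push Not at hcon
      have hall : ∀ v ∈ K, (N v).card = 2 := by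
        intro v hv
        by_contra hne
        have h1 := hmove v hv
        have h2 := hN.two v
        have h3 : (NS' N R v ∩ PK N R K).Nonempty := by
          have : v ∈ alive (NS' N R) (PK N R K) := by rw [alive_PK hN hK]; exact hv
          exact mem_alive.1 this
        have h4 := hcon v h3
        omega
      -- double counting
      have h1 : ∑ v ∈ alive N K, (N v ∩ K).card = 2 * (alive N K).card := by
        rw [sum_congr rfl (fun v hv => hb.2.1.2 v (mem_alive.1 hv)), sum_const, smul_eq_mul]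
        ring
      have h2 : ∑ v ∈ alive N K, (N v ∩ K).card = 2 * K.card := by
        rw [double_count]
        have : ∀ x ∈ K, ((alive N K).filter fun v => x ∈ N v).card = 2 := by
          intro x hx
          rw [← hall x hx]
          congr 1
          ext v
          rw [mem_filter, mem_alive, hN.sym v x]
          constructor
          · exact fun h => h.2
          · intro h
            exact ⟨⟨x, mem_inter.2 ⟨(hN.sym v x).2 h, hx⟩⟩, h⟩
        rw [sum_congr rfl this, sum_const, smul_eq_mul]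
        ring
      unfold Phi at h5
      rw [inter_empty, card_empty] at h5
      omega
  omega

/-- The rest: `F` is not larger than at the start. -/
lemma F2_YY (hN : Sym N) : F2 (NS' N R) (HV R) (YY N R) ≤ F2 N ∅ univ := by
  obtain ⟨R', hR', h⟩ := exists_F2 (N := NS' N R) (Hv := HV R) (U := YY N R)
  rw [← h]
  set f : V ↪ YT R := Function.Embedding.inl with hf
  obtain ⟨R'', _, hR''⟩ : ∃ R'', R'' ⊆ ((univ \ ES N R) \ JS N R) ∧ R' = R''.map f := by
    apply exists_map_of_subset
    intro y hy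
    have h1 := hR' hy
    rw [mem_sdiff] at h1
    rcases y with x | w
    · rw [mem_YY_inl] at h1
      rw [mem_map]
      exact ⟨x, by simp [h1.1], rfl⟩
    · exact absurd mem_HV_inr h1.2
  have hfx : ∀ x, f x = Sum.inl x := fun x => rfl
  have hmemR : ∀ x, (Sum.inl x : YT R) ∈ R' ↔ x ∈ R'' := by
    intro x
    rw [hR'', ← hfx, mem_map' f]
  have hinr : ∀ w : {w // w ∈ R}, (Sum.inr w : YT R) ∉ R' := by
    intro w hw
    exact (mem_sdiff.1 (hR' hw)).2 mem_HV_inr
  -- a player meeting `YY` which is not in `R` keeps all his targets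
  have hkeep : ∀ v, v ∉ R → v ∉ VS N R → ∀ x ∈ N v,
      (Sum.inl x : YT R) ∈ NS' N R v ∧ (Sum.inl x : YT R) ∈ YY N R := by
    intro v hvR hvS x hx
    have hvx := (hN.sym v x).1 hx
    have hE : x ∉ ES N R := by
      intro hE
      obtain ⟨K, hK, h'⟩ := mem_ES.1 hE
      rcases player_of_cluster hK h' hvx with h'' | h''
      · exact hvS (mem_VS.2 ⟨K, hK, h''⟩)
      · exact hvR h''
    have hJ : x ∉ JS N R := fun hJ => hvR ((mem_JS.1 hJ).2 hvx)
    exact ⟨by simp [hx, hE], mem_YY_inl.2 ⟨hE, hJ⟩⟩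
  have hVS : ∀ v, (NS' N R v ∩ YY N R).Nonempty → v ∉ VS N R := by
    intro v hv hvS
    obtain ⟨K, hK, hvK⟩ := mem_VS.1 hvS
    have h1 : (NS' N R v ∩ PK N R K).Nonempty := by
      have : v ∈ alive (NS' N R) (PK N R K) := by rw [alive_PK hN hK]; exact hvK
      exact mem_alive.1 this
    exact sep_PK_YY hN hK v h1 hv
  have hJ : J (NS' N R) (YY N R) R' ⊆ J N univ R'' := by
    intro v hv
    rw [mem_J] at hv ⊢
    obtain ⟨h1, h2⟩ := hv
    have hvR : v ∉ R := by
      intro hvR
      exact hinr ⟨v, hvR⟩ (h2 (mem_inter.2 ⟨by simp, mem_YY_inr⟩))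
    have hvS := hVS v h1
    constructor
    · rw [inter_univ, ← card_pos]
      have := hN.two v
      omega
    · intro x hx
      rw [inter_univ] at hx
      have h3 := hkeep v hvR hvS x hx
      exact (hmemR x).1 (h2 (mem_inter.2 h3))
  have hbc : bc (NS' N R) (HV R) (YY N R) R' ⊆ (bc N ∅ univ R'').map (mapEmbedding f).toEmbedding := by
    intro K' hK'
    rw [mem_bc] at hK'
    obtain ⟨hc, hb⟩ := hK'
    have hKH := hb.2.1.1
    have hK1 : ∀ w : {w // w ∈ R}, (Sum.inr w : YT R) ∉ K' :=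
      fun w hw => (disjoint_left.1 hKH hw) mem_HV_inr
    obtain ⟨K, hK2, rfl⟩ : ∃ K, K ⊆ ((univ \ ES N R) \ JS N R) ∧ K' = K.map f := by
      apply exists_map_of_subset
      intro y hy
      have h1 := hc.1 hy
      rw [mem_sdiff] at h1
      rcases y with x | w
      · rw [mem_YY_inl] at h1
        rw [mem_map]
        exact ⟨x, by simp [h1.1], rfl⟩
      · exact absurd hy (hK1 w)
    have hmemK : ∀ x, (Sum.inl x : YT R) ∈ K.map f ↔ x ∈ K := by
      intro x
      rw [← hfx, mem_map' f]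
    have hKE : ∀ x ∈ K, x ∉ ES N R := by
      intro x hx
      have := hK2 hx
      simp only [mem_sdiff] at this
      exact this.1.2
    have hsame : SameOn N (NS' N R) f K := by
      intro v x hx
      rw [hfx, mem_NS'_inl]
      constructor
      · exact fun h => h.1
      · intro h
        exact ⟨h, Or.inr (hKE x hx)⟩
    rw [mem_map]
    refine ⟨K, mem_bc.2 ⟨⟨?_, ?_⟩, hsame.bad (disjoint_empty_right K) hb⟩, rfl⟩
    · intro x hx
      have h1 := hc.1 ((hmemK x).2 hx)
      rw [mem_sdiff, hmemR] at h1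
      exact mem_sdiff.2 ⟨mem_univ x, h1.2⟩
    · intro v hv
      have hv' : (NS' N R v ∩ K.map f).Nonempty := (hsame.nonempty v).2 hv
      have h1 := hc.2 v hv'
      have hvY : (NS' N R v ∩ YY N R).Nonempty :=
        hv'.mono (inter_subset_inter_left (hc.1.trans sdiff_subset))
      have hvS := hVS v hvY
      have hvR : v ∉ R := by
        intro hvR
        apply hK1 ⟨v, hvR⟩
        apply h1
        rw [mem_inter, mem_sdiff]
        exact ⟨by simp, mem_YY_inr, hinr _⟩
      intro x hx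
      rw [mem_inter, mem_sdiff] at hx
      have h3 := hkeep v hvR hvS x hx.1
      rw [← hmemK]
      apply h1
      rw [mem_inter, mem_sdiff]
      exact ⟨h3.1, h3.2, fun h4 => hx.2.2 ((hmemR x).1 h4)⟩
  have hbc' := card_le_card hbc
  rw [card_map] at hbc'
  have hJ' := card_le_card hJ
  have hRc : R'.card = R''.card := by rw [hR'', card_map]
  have h4 := sf_le_F2 (N := N) (Hv := ∅) (U := univ) (R := R'') (by simp)
  refine le_trans ?_ h4
  unfold sf ph
  rw [hRc]
  have h5 : ((J (NS' N R) (YY N R) R').card : ℤ) ≤ (J N univ R'').card := by exact_mod_cast hJ'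
  have h6 : ((bc (NS' N R) (HV R) (YY N R) R').card : ℤ) ≤ (bc N ∅ univ R'').card := by
    exact_mod_cast hbc'
  linarith

lemma Phi_YY (hN : Sym N) : Phi (NS' N R) (HV R) (YY N R) + (ES N R).card + (JS N R).card +
    (VS N R).card ≤ 2 * Fintype.card V + 2 * R.card := by
  unfold Phi
  have h1 : (YY N R).card + (ES N R).card + (JS N R).card ≤ Fintype.card V + R.card := by
    have e1 : (YY N R).card ≤ ((univ \ ES N R) \ JS N R).card + R.card := by
      unfold YY
      refine (card_union_le _ _).trans ?_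
      rw [card_map]
      unfold HV
      rw [card_map, card_univ, Fintype.card_coe]
    have hd : Disjoint (ES N R) (JS N R) := by
      rw [disjoint_left]
      intro x hE hJ
      obtain ⟨K, hK, v, hv⟩ := mem_ES.1 hE
      rw [mem_inter] at hv
      exact VS_not_R (mem_VS.2 ⟨K, hK, hv.2⟩) ((mem_JS.1 hJ).2 hv.1)
    have e2 : ((univ \ ES N R) \ JS N R).card + ((ES N R).card + (JS N R).card) =
        Fintype.card V := by
      rw [← card_union_of_disjoint hd, sdiff_sdiff_union, union_comm,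
        card_sdiff_add_card_eq_card (subset_univ _), card_univ]
    omega
  have h2 : (YY N R ∩ HV R).card ≤ R.card := by
    refine (card_le_card inter_subset_right).trans ?_
    unfold HV
    rw [card_map, card_univ, Fintype.card_coe]
  have h3 : (alive (NS' N R) (YY N R)).card + (VS N R).card ≤ Fintype.card V := by
    rw [← card_union_of_disjoint, ← card_univ]
    · exact card_le_card (subset_univ _)
    · rw [disjoint_left]
      intro v hv hvS
      rw [mem_alive] at hv
      obtain ⟨K, hK, hvK⟩ := mem_VS.1 hvS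
      have h1 : (NS' N R v ∩ PK N R K).Nonempty := by
        have : v ∈ alive (NS' N R) (PK N R K) := by rw [alive_PK hN hK]; exact hvK
        exact mem_alive.1 this
      exact sep_PK_YY hN hK v h1 hv
  omega

lemma sum_Phi_bc : ∑ K ∈ bc N ∅ univ R, Phi N ∅ K = (VS N R).card + (ES N R).card := by
  have h1 : (VS N R).card = ∑ K ∈ bc N ∅ univ R, K.card := by
    unfold VS
    rw [card_biUnion]
    · rfl
    · intro K hK L hL h
      exact bc_disjoint hK hL h
  have h2 : (ES N R).card = ∑ K ∈ bc N ∅ univ R, (alive N K).card := by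
    have e : ES N R = (bc N ∅ univ R).biUnion fun K => alive N K := by
      ext x
      rw [mem_ES, mem_biUnion]
      simp only [mem_alive]
    rw [e, card_biUnion]
    intro K hK L hL h
    show Disjoint (alive N K) (alive N L)
    rw [disjoint_left]
    intro x hx hx'
    rw [mem_alive] at hx hx'
    obtain ⟨v, hv⟩ := hx'
    rw [mem_inter] at hv
    rcases player_of_cluster hK hx hv.1 with h3 | h3
    · exact (disjoint_left.1 (bc_disjoint hK hL h)) h3 hv.2
    · exact VS_not_R (mem_VS.2 ⟨L, hL, hv.2⟩) h3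
  rw [h1, h2, ← sum_add_distrib]
  refine sum_congr rfl fun K _ => ?_
  unfold Phi
  rw [inter_empty, card_empty]
  omega

/-- THE START: from the main theorem on positions to the graph game. -/
theorem ns_univ_le (hM : MainStmt) (hN : Sym N) : 3 * ns N univ ≤ 4 * Fintype.card V := by
  obtain ⟨R, _, hR⟩ := exists_F2 (N := N) (Hv := ∅) (U := (univ : Finset V))
  have h1 := sim_start (R := R) hN
  have h2 : ns (NS' N R) (W0 N R) ≤ ∑ K ∈ bc N ∅ univ R, ns (NS' N R) (PK N R K) +
      ns (NS' N R) (YY N R) := by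
    unfold W0
    exact ns_biUnion _ _ _ (fun K hK L hL h => sep_PK hN hK hL h) (fun K hK => sep_PK_YY hN hK)
  have h3 : 3 * ∑ K ∈ bc N ∅ univ R, ns (NS' N R) (PK N R K) + 4 * (bc N ∅ univ R).card ≤
      2 * ((VS N R).card + (ES N R).card) := by
    rw [← sum_Phi_bc, mul_sum, mul_sum]
    have : ∑ K ∈ bc N ∅ univ R, (3 * ns (NS' N R) (PK N R K) + 4) ≤
        ∑ K ∈ bc N ∅ univ R, 2 * Phi N ∅ K := sum_le_sum fun K hK => ns_PK hM hN hK
    rw [sum_add_distrib, sum_const, smul_eq_mul] at this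
    omega
  have h4 := hM V (YT R) (NS' N R) (HV R) (YY N R) (world_start hN)
  have h5 := three_MM_le (N := NS' N R) (Hv := HV R) (U := YY N R)
  have h6 := F2_YY (R := R) hN
  have h7 := Phi_YY (R := R) hN
  have h8 := F2_nonneg (N := N) (Hv := ∅) (U := (univ : Finset V))
  have h9 : sf N ∅ univ R = - (2 * (R.card : ℤ) - ((JS N R).card : ℤ)) +
      2 * ((bc N ∅ univ R).card : ℤ) := rfl
  zify at h1 h2 h3 h7 ⊢
  rw [h9] at hR
  linarith

end Start

end Pool.Agent.TDG
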