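import Mathlib
import Pool.Agent.Helper53_TDG.Start

/-!
# Total domination game, bound 2/3: from the main theorem on positions to graphs
-/

set_option autoImplicit false

namespace Pool.Agent.TDG.Fin53

/-- The selected set `S` totally dominates `x`. -/
def Dominated {V : Type} (G : SimpleGraph V) (S : Finset V) (x : V) : Prop :=
  ∃ v ∈ S, G.Adj v x

/-- After the vertices of `S` have been selected, the vertex `v` may be selected: it totally
dominates some vertex that `S` does not totally dominate. -/
def Legal {V : Type} (G : SimpleGraph V) (S : Finset V) (v : V) : Prop :=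
  ∃ x, G.Adj v x ∧ ¬ Dominated G S x

/-- The game is over: every vertex is totally dominated. -/
def Over {V : Type} (G : SimpleGraph V) (S : Finset V) : Prop :=
  ∀ x, Dominated G S x

/-- `CanEnd G k t S`: from the position where the vertices of `S` have been selected, with
Dominator to move if `t = true` and Staller to move if `t = false`, Dominator has a strategy which
makes the game end after at most `k` further moves. -/
def CanEnd {V : Type} [DecidableEq V] (G : SimpleGraph V) : ℕ → Bool → Finset V → Prop
  | 0, _, S => Over G S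
  | k+1, true, S => Over G S ∨ ∃ v, Legal G S v ∧ CanEnd G k false (insert v S)
  | k+1, false, S => Over G S ∨ ∀ v, Legal G S v → CanEnd G k true (insert v S)

/-- The game total domination number (Dominator moves first): the least `k` such that Dominator
can make the game end after at most `k` moves. -/
noncomputable def gammaTg {V : Type} [DecidableEq V] (G : SimpleGraph V) : ℕ :=
  sInf {k | CanEnd G k true ∅}

section
variable {V : Type} [Fintype V] [DecidableEq V] (G : SimpleGraph V) [DecidableRel G.Adj]

/-- The set of vertices not dominated. -/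
def unc (S : Finset V) : Finset V :=
  Finset.univ.filter fun x => ∀ v ∈ S, ¬ G.Adj v x

lemma mem_unc (S : Finset V) (x : V) : x ∈ unc G S ↔ ¬ Dominated G S x := by
  simp [unc, Dominated]

lemma over_iff (S : Finset V) : Over G S ↔ unc G S = ∅ := by
  rw [Finset.eq_empty_iff_forall_notMem]
  unfold Over
  refine forall_congr' fun x => ?_
  rw [mem_unc, not_not]

lemma legal_iff (S : Finset V) (v : V) :
    Legal G S v ↔ (G.neighborFinset v ∩ unc G S).Nonempty := by
  unfold Legal
  constructor
  · rintro ⟨x, h1, h2⟩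
    exact ⟨x, Finset.mem_inter.2 ⟨(G.mem_neighborFinset v x).2 h1, (mem_unc G S x).2 h2⟩⟩
  · rintro ⟨x, hx⟩
    rw [Finset.mem_inter, mem_unc, G.mem_neighborFinset] at hx
    exact ⟨x, hx⟩

lemma unc_insert (S : Finset V) (v : V) :
    unc G (insert v S) = unc G S \ G.neighborFinset v := by
  ext x
  simp only [unc, Finset.mem_filter, Finset.mem_univ, true_and, Finset.mem_insert,
    forall_eq_or_imp, Finset.mem_sdiff, SimpleGraph.mem_neighborFinset]
  tauto

lemma canEnd_iff (k : ℕ) : ∀ (t : Bool) (S : Finset V),
    CanEnd G k t S ↔ Helper77.TDG.CE (fun v => G.neighborFinset v) k t (unc G S) := by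
  induction k with
  | zero =>
    intro t S
    simp only [CanEnd, Helper77.TDG.CE]
    exact over_iff G S
  | succ k ih =>
    intro t S
    cases t with
    | true =>
      simp only [CanEnd, Helper77.TDG.CE]
      rw [over_iff]
      refine or_congr_right (exists_congr fun v => ?_)
      rw [legal_iff, ih, unc_insert]
    | false =>
      simp only [CanEnd, Helper77.TDG.CE]
      constructor
      · rintro (h | h) v hv
        · rw [over_iff] at h
          rw [h, Finset.inter_empty] at hv
          exact absurd hv Finset.not_nonempty_empty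
        · have := h v ((legal_iff G S v).2 hv)
          rw [ih, unc_insert] at this
          exact this
      · intro h
        right
        intro v hv
        rw [ih, unc_insert]
        exact h v ((legal_iff G S v).1 hv)

/-- Monotonicity in the number of moves. -/
lemma CE_mono {V X : Type} [Fintype V] [DecidableEq V] [DecidableEq X] {N : V → Finset X} :
    ∀ (k l : ℕ) (t : Bool) (U : Finset X), k ≤ l → Helper77.TDG.CE N k t U →
      Helper77.TDG.CE N l t U := by
  intro k
  induction k with
  | zero =>
    intro l t U _ h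
    have : U = ∅ := h
    subst this
    exact Helper77.TDG.CE_empty _ _
  | succ k ih =>
    intro l t U hkl h
    obtain ⟨l, rfl⟩ : ∃ l', l = l' + 1 := ⟨l - 1, by omega⟩
    cases t with
    | true =>
      rcases h with h | ⟨v, hv, h⟩
      · exact Or.inl h
      · exact Or.inr ⟨v, hv, ih _ _ _ (by omega) h⟩
    | false =>
      intro v hv
      exact ih _ _ _ (by omega) (h v hv)

omit [DecidableEq V] in
lemma sym_graph (hδ : ∀ v, 2 ≤ G.degree v) : Pool.Agent.TDG.Sym (fun v => G.neighborFinset v) := by
  refine ⟨fun v x => ?_, fun v => hδ v⟩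
  simp [G.adj_comm]

lemma canEnd_bound (hM : Pool.Agent.TDG.MainStmt) (hδ : ∀ v, 2 ≤ G.degree v) :
    CanEnd G ((2 * Fintype.card V + 3) / 3) true ∅ := by
  have hunc : unc G ∅ = Finset.univ := by
    ext x
    simp [unc]
  have hN := sym_graph G hδ
  rw [canEnd_iff, hunc]
  have h1 := Pool.Agent.TDG.ns_univ_le hM hN
  have hN' : ∀ x, ∃ v, x ∈ (fun v => G.neighborFinset v) v := by
    intro x
    have h2 := hδ x
    obtain ⟨v, hv⟩ : (G.neighborFinset x).Nonempty := by
      rw [← Finset.card_pos, G.card_neighborFinset_eq_degree]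
      omega
    exact ⟨v, (hN.sym v x).2 hv⟩
  have h2 := (Pool.Agent.TDG.CE_of_ns hN' _ Finset.univ le_rfl).1
  refine CE_mono _ _ _ _ ?_ h2
  omega

/-- The upper bound. -/
theorem upper (hM : Pool.Agent.TDG.MainStmt) (hδ : ∀ v, 2 ≤ G.degree v) :
    CanEnd G (gammaTg G) true ∅ ∧ 3 * gammaTg G ≤ 2 * Fintype.card V + 3 := by
  have hk := canEnd_bound G hM hδ
  have hne : {k | CanEnd G k true ∅}.Nonempty := ⟨_, hk⟩
  refine ⟨Nat.sInf_mem hne, ?_⟩
  have hle : gammaTg G ≤ (2 * Fintype.card V + 3) / 3 := Nat.sInf_le hk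
  omega

end

/-! ### the disjoint union of `k` triangles -/

/-- The disjoint union of `k` triangles. -/
def tri (k : ℕ) : SimpleGraph (Fin k × Fin 3) where
  Adj a b := a.1 = b.1 ∧ a.2 ≠ b.2
  symm := ⟨fun _ _ h => ⟨h.1.symm, h.2.symm⟩⟩
  loopless := ⟨fun _ h => h.2 rfl⟩

instance (k : ℕ) : DecidableRel (tri k).Adj := fun a b =>
  inferInstanceAs (Decidable (a.1 = b.1 ∧ a.2 ≠ b.2))

lemma tri_degree (k : ℕ) (v : Fin k × Fin 3) : (tri k).degree v = 2 := by
  have h : (tri k).neighborFinset v = (Finset.univ.erase v.2).map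
      ⟨fun j => (v.1, j), fun a b h => by simpa using h⟩ := by
    ext ⟨i, j⟩
    rw [SimpleGraph.mem_neighborFinset, Finset.mem_map]
    constructor
    · intro h
      obtain ⟨h1, h2⟩ : v.1 = i ∧ v.2 ≠ j := h
      exact ⟨j, Finset.mem_erase.2 ⟨h2.symm, Finset.mem_univ j⟩, Prod.ext h1 rfl⟩
    · rintro ⟨a, h1, h2⟩
      have e1 : v.1 = i := congrArg Prod.fst h2
      have e2 : a = j := congrArg Prod.snd h2
      subst e2
      exact ⟨e1, (Finset.ne_of_mem_erase h1).symm⟩
  rw [← SimpleGraph.card_neighborFinset_eq_degree, h, Finset.card_map,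
    Finset.card_erase_of_mem (Finset.mem_univ _)]
  rfl

/-- The selected vertices of the triangle `i`. -/
def sel {k : ℕ} (S : Finset (Fin k × Fin 3)) (i : Fin k) : Finset (Fin 3) :=
  Finset.univ.filter fun j => (i, j) ∈ S

/-- The number of moves still to be made. -/
def rest {k : ℕ} (S : Finset (Fin k × Fin 3)) : ℕ := ∑ i, (2 - (sel S i).card)

lemma dominated_tri {k : ℕ} (S : Finset (Fin k × Fin 3)) (i : Fin k) (j : Fin 3) :
    Dominated (tri k) S (i, j) ↔ ∃ a ∈ sel S i, a ≠ j := by
  unfold Dominated sel
  constructor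
  · rintro ⟨⟨i', a⟩, h1, h2, h3⟩
    simp only at h2 h3
    subst h2
    exact ⟨a, by simpa using h1, h3⟩
  · rintro ⟨a, h1, h2⟩
    exact ⟨(i, a), by simpa using h1, rfl, h2⟩

lemma rest_over {k : ℕ} {S : Finset (Fin k × Fin 3)} (h : Over (tri k) S) : rest S = 0 := by
  unfold rest
  apply Finset.sum_eq_zero
  intro i _
  obtain ⟨a, ha, _⟩ := (dominated_tri S i 0).1 (h (i, 0))
  obtain ⟨b, hb, hab⟩ := (dominated_tri S i a).1 (h (i, a))
  have : 1 < (sel S i).card := Finset.one_lt_card.2 ⟨a, ha, b, hb, hab.symm⟩
  omega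

lemma rest_legal {k : ℕ} {S : Finset (Fin k × Fin 3)} {v : Fin k × Fin 3}
    (h : Legal (tri k) S v) : rest S = rest (insert v S) + 1 := by
  obtain ⟨⟨i, b⟩, ⟨h1, h2⟩, h3⟩ := h
  obtain ⟨i', a⟩ := v
  simp only at h1 h2
  subst h1
  rw [dominated_tri] at h3
  push Not at h3
  have hsub : sel S i' ⊆ {b} := by
    intro c hc
    rw [Finset.mem_singleton]
    exact h3 c hc
  have hcard : (sel S i').card ≤ 1 := by
    have := Finset.card_le_card hsub
    simpa using this
  have hna : a ∉ sel S i' := fun ha => h2 (h3 a ha)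
  have hins : sel (insert (i', a) S) i' = insert a (sel S i') := by
    ext c
    unfold sel
    simp only [Finset.mem_filter, Finset.mem_univ, true_and, Finset.mem_insert, Prod.mk.injEq]
  have hother : ∀ i ≠ i', sel (insert (i', a) S) i = sel S i := by
    intro i hi
    ext c
    unfold sel
    simp only [Finset.mem_filter, Finset.mem_univ, true_and, Finset.mem_insert, Prod.mk.injEq,
      hi, false_and, false_or]
  unfold rest
  rw [← Finset.add_sum_erase _ _ (Finset.mem_univ i'),
    ← Finset.add_sum_erase _ _ (Finset.mem_univ i'), hins, Finset.card_insert_of_notMem hna]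
  have hs : ∑ i ∈ Finset.univ.erase i', (2 - (sel (insert (i', a) S) i).card) =
      ∑ i ∈ Finset.univ.erase i', (2 - (sel S i).card) := by
    refine Finset.sum_congr rfl fun i hi => ?_
    rw [hother i (Finset.ne_of_mem_erase hi)]
  rw [hs]
  omega

lemma exists_legal {k : ℕ} {S : Finset (Fin k × Fin 3)} (h : ¬ Over (tri k) S) :
    ∃ v, Legal (tri k) S v := by
  unfold Over at h
  push Not at h
  obtain ⟨⟨i, j⟩, hx⟩ := h
  have hj : ∀ j : Fin 3, j + 1 ≠ j := by decide
  exact ⟨(i, j + 1), (i, j), ⟨rfl, hj j⟩, hx⟩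

lemma rest_le {k : ℕ} : ∀ (m : ℕ) (t : Bool) (S : Finset (Fin k × Fin 3)),
    CanEnd (tri k) m t S → rest S ≤ m := by
  intro m
  induction m with
  | zero =>
    intro t S h
    simp only [CanEnd] at h
    rw [rest_over h]
  | succ m ih =>
    intro t S h
    by_cases ho : Over (tri k) S
    · rw [rest_over ho]
      omega
    · cases t with
      | true =>
        simp only [CanEnd] at h
        obtain ⟨v, hv, h⟩ := h.resolve_left ho
        have := ih _ _ h
        rw [rest_legal hv]
        omega
      | false =>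
        simp only [CanEnd] at h
        have h := h.resolve_left ho
        obtain ⟨v, hv⟩ := exists_legal ho
        have := ih _ _ (h v hv)
        rw [rest_legal hv]
        omega

lemma rest_empty (k : ℕ) : rest (∅ : Finset (Fin k × Fin 3)) = 2 * k := by
  unfold rest sel
  simp
  ring

/-- The constants `c` for which `γ_tg(G) ≤ c n + 1` for all graphs of minimum degree at least 2. -/
def Admissible : Set ℝ :=
  {c | 0 < c ∧ ∀ (V : Type) [Fintype V] [DecidableEq V] (G : SimpleGraph V) [DecidableRel G.Adj],
    (∀ v, 2 ≤ G.degree v) → (gammaTg G : ℝ) ≤ c * (Fintype.card V : ℝ) + 1}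

/-- The whole answer, from the main theorem on positions. -/
theorem final (hM : Pool.Agent.TDG.MainStmt) :
    IsLeast Admissible (2 / 3) ∧
    ∀ (V : Type) [Fintype V] [DecidableEq V] (G : SimpleGraph V) [DecidableRel G.Adj],
      (∀ v, 2 ≤ G.degree v) → CanEnd G (gammaTg G) true ∅ := by
  refine ⟨⟨⟨by norm_num, ?_⟩, ?_⟩, fun V _ _ G _ hδ => (upper G hM hδ).1⟩
  · intro V _ _ G _ hδ
    have h := (upper G hM hδ).2
    have h' : (3 * gammaTg G : ℝ) ≤ 2 * Fintype.card V + 3 := by exact_mod_cast h
    linarith
  · rintro c ⟨hc, h⟩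
    by_contra hlt
    push Not at hlt
    obtain ⟨k, hk⟩ := exists_nat_gt (1 / (2 - 3 * c))
    have hpos : 0 < 2 - 3 * c := by linarith
    have h1 := h (Fin k × Fin 3) (tri k) (fun v => (tri_degree k v).ge)
    have h2 := (upper (tri k) hM (fun v => (tri_degree k v).ge)).1
    have h3 := rest_le _ _ _ h2
    rw [rest_empty] at h3
    have h4 : (2 * k : ℝ) ≤ gammaTg (tri k) := by exact_mod_cast h3
    rw [Fintype.card_prod, Fintype.card_fin, Fintype.card_fin] at h1
    push_cast at h1
    have h5 : 1 < k * (2 - 3 * c) := by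
      rwa [div_lt_iff₀ hpos] at hk
    nlinarith

end Pool.Agent.TDG.Fin53
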