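import Mathlib
import Pool.Agent.Helper29_TDG.Stmts
import Pool.Agent.Helper53_TDG.Split

/-!
# Total domination game, bound 2/3: additivity and nonnegativity of the potential
-/

namespace Pool.Agent.TDG.H53

open Finset Helper77.TDG

theorem ad : ADStmt := by
  intro V X _ _ _ N Hv U K _ hK
  exact MM_split hK

theorem nn : NNStmt := by
  intro V X _ _ _ N Hv U _
  exact MM_nonneg

end Pool.Agent.TDG.H53
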